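import Pool.Agent.Q275.ME.Gauss

/-!
# Sums over the units modulo `p ^ (2l)` which are `1` modulo `p`
-/

set_option autoImplicit false

open Finset

namespace Pool.Agent.Q275.ME

open Pool.Agent.Y821.ME

section

variable {p l : ℕ} [Fact p.Prime]

omit [Fact p.Prime] in
theorem ppow_self : (p : ZMod (p ^ (2 * l))) ^ (2 * l) = 0 := by
  have : ((p ^ (2 * l) : ℕ) : ZMod (p ^ (2 * l))) = 0 := ZMod.natCast_self _
  rw [Nat.cast_pow] at this
  exact this

omit [Fact p.Prime] in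
theorem ppow_zero {k : ℕ} (hk : 2 * l ≤ k) : (p : ZMod (p ^ (2 * l))) ^ k = 0 := by
  obtain ⟨j, rfl⟩ := Nat.exists_eq_add_of_le hk
  rw [pow_add, ppow_self, zero_mul]

open Classical in
/-- the units `b` with `p ^ (2l - 1) (b - 1) = 0`, that is, `b ≡ 1` modulo `p` -/
noncomputable def cls (p l : ℕ) [Fact p.Prime] : Finset (ZMod (p ^ (2 * l)))ˣ :=
  univ.filter (fun b => (p : ZMod (p ^ (2 * l))) ^ (2 * l - 1) * b = (p : ZMod (p ^ (2 * l))) ^ (2 * l - 1))

theorem mem_cls (b : (ZMod (p ^ (2 * l)))ˣ) : b ∈ cls p l ↔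
    (p : ZMod (p ^ (2 * l))) ^ (2 * l - 1) * b = (p : ZMod (p ^ (2 * l))) ^ (2 * l - 1) := by
  unfold cls
  rw [mem_filter]
  exact ⟨fun h => h.2, fun h => ⟨mem_univ _, h⟩⟩

/-- translation of the class by a multiple of `p` -/
theorem cls_shift (hl : 1 ≤ l) (y : ZMod (p ^ (2 * l))) (f : ZMod (p ^ (2 * l)) → ℂ) :
    ∑ b ∈ cls p l, f ((b : ZMod (p ^ (2 * l))) + (p : ZMod (p ^ (2 * l))) * y) = ∑ b ∈ cls p l, f b := by
  have hnil : IsNilpotent ((p : ZMod (p ^ (2 * l))) * y) := by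
    refine (Commute.all _ _).isNilpotent_mul_right ⟨2 * l, ppow_self⟩
  have hu : ∀ b : (ZMod (p ^ (2 * l)))ˣ, IsUnit ((b : ZMod (p ^ (2 * l))) + (p : ZMod (p ^ (2 * l))) * y) :=
    fun b => hnil.isUnit_add_left_of_commute b.isUnit (Commute.all _ _)
  let σ : (ZMod (p ^ (2 * l)))ˣ → (ZMod (p ^ (2 * l)))ˣ := fun b => (hu b).unit
  have hσ : ∀ b, ((σ b : (ZMod (p ^ (2 * l)))ˣ) : ZMod (p ^ (2 * l))) = b + (p : ZMod (p ^ (2 * l))) * y :=
    fun b => rfl
  have hinj : Function.Injective σ := by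
    intro a b hab
    have h1 : ((σ a : (ZMod (p ^ (2 * l)))ˣ) : ZMod (p ^ (2 * l))) = σ b := by rw [hab]
    rw [hσ, hσ] at h1
    exact Units.ext (add_right_cancel h1)
  have hpp : (p : ZMod (p ^ (2 * l))) ^ (2 * l - 1) * (p : ZMod (p ^ (2 * l))) = 0 := by
    rw [← pow_succ]
    exact ppow_zero (by omega)
  have hmaps : ∀ b ∈ cls p l, σ b ∈ cls p l := by
    intro b hb
    rw [mem_cls] at hb ⊢
    rw [hσ, mul_add, ← mul_assoc, hpp, zero_mul, add_zero, hb]
  have himg : (cls p l).image σ = cls p l :=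
    eq_of_subset_of_card_le (fun x hx => by
      obtain ⟨b, hb, rfl⟩ := mem_image.mp hx
      exact hmaps b hb) (card_image_of_injective _ hinj).ge
  calc ∑ b ∈ cls p l, f ((b : ZMod (p ^ (2 * l))) + (p : ZMod (p ^ (2 * l))) * y)
      = ∑ b ∈ cls p l, f (σ b) := rfl
    _ = ∑ b ∈ (cls p l).image σ, f b :=
        (sum_image (f := fun b : (ZMod (p ^ (2 * l)))ˣ => f (b : ZMod (p ^ (2 * l))))
          (fun x _ y _ h => hinj h)).symm
    _ = _ := by rw [himg]

/-- the class has at least `p ^ (2l - 1)` elements -/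
theorem card_cls_ge (hl : 1 ≤ l) : p ^ (2 * l - 1) ≤ (cls p l).card := by
  have hp : p.Prime := Fact.out
  have hnil : ∀ x : ℕ, IsNilpotent ((p : ZMod (p ^ (2 * l))) * (x : ZMod (p ^ (2 * l)))) := fun x =>
    (Commute.all _ _).isNilpotent_mul_right ⟨2 * l, ppow_self⟩
  have hu : ∀ x : ℕ, IsUnit ((1 : ZMod (p ^ (2 * l))) + (p : ZMod (p ^ (2 * l))) * (x : ZMod (p ^ (2 * l)))) :=
    fun x => (hnil x).isUnit_add_left_of_commute isUnit_one (Commute.all _ _)
  have h1 : ((range (p ^ (2 * l - 1))).image (fun x => (hu x).unit)).card = p ^ (2 * l - 1) := by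
    rw [card_image_of_injOn, card_range]
    intro x hx y hy hxy
    rw [mem_coe, mem_range] at hx hy
    have h2 := congrArg (fun u : (ZMod (p ^ (2 * l)))ˣ => (u : ZMod (p ^ (2 * l)))) hxy
    simp only [IsUnit.unit_spec] at h2
    have h3 : ((p * x : ℕ) : ZMod (p ^ (2 * l))) = ((p * y : ℕ) : ZMod (p ^ (2 * l))) := by
      push_cast
      exact add_left_cancel h2
    rw [ZMod.natCast_eq_natCast_iff, Nat.ModEq] at h3
    have h4 : p ^ (2 * l) = p * p ^ (2 * l - 1) := by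
      rw [← pow_succ']
      congr 1
      omega
    have h5 : p * x < p ^ (2 * l) := by
      rw [h4]
      exact Nat.mul_lt_mul_of_pos_left hx hp.pos
    have h6 : p * y < p ^ (2 * l) := by
      rw [h4]
      exact Nat.mul_lt_mul_of_pos_left hy hp.pos
    rw [Nat.mod_eq_of_lt h5, Nat.mod_eq_of_lt h6] at h3
    exact Nat.eq_of_mul_eq_mul_left hp.pos h3
  rw [← h1]
  refine card_le_card fun u hu' => ?_
  obtain ⟨x, _, rfl⟩ := mem_image.mp hu'
  rw [mem_cls]
  simp only [IsUnit.unit_spec]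
  have h7 : (p : ZMod (p ^ (2 * l))) ^ (2 * l - 1) * (p : ZMod (p ^ (2 * l))) = 0 := by
    rw [← pow_succ]
    exact ppow_zero (by omega)
  rw [mul_add, mul_one, ← mul_assoc, h7, zero_mul, add_zero]

/-- the character sum over the class vanishes -/
theorem sum_cls_eq_zero (hl : 1 ≤ l) (t : ZMod (p ^ (2 * l)))
    (ht : (p : ZMod (p ^ (2 * l))) * t ≠ 0) :
    ∑ b ∈ cls p l, ee (p ^ (2 * l)) ((b : ZMod (p ^ (2 * l))) * t) = 0 := by
  have hsum := cls_shift hl 1 (fun x : ZMod (p ^ (2 * l)) => ee (p ^ (2 * l)) (x * t))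
  have h2 : ∀ b ∈ cls p l,
      ee (p ^ (2 * l)) (((b : ZMod (p ^ (2 * l))) + (p : ZMod (p ^ (2 * l))) * 1) * t) =
        ee (p ^ (2 * l)) ((b : ZMod (p ^ (2 * l))) * t) * ee (p ^ (2 * l)) ((p : ZMod (p ^ (2 * l))) * t) := by
    intro b _
    rw [mul_one, add_mul, ee_add']
  rw [sum_congr rfl h2, ← sum_mul] at hsum
  have hne : ee (p ^ (2 * l)) ((p : ZMod (p ^ (2 * l))) * t) ≠ 1 := by
    intro h1
    apply ht
    apply ZMod.injective_stdAddChar (N := p ^ (2 * l))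
    rw [AddChar.map_zero_eq_one]
    exact h1
  have h3 : (∑ b ∈ cls p l, ee (p ^ (2 * l)) ((b : ZMod (p ^ (2 * l))) * t)) *
      (ee (p ^ (2 * l)) ((p : ZMod (p ^ (2 * l))) * t) - 1) = 0 := by
    rw [mul_sub, hsum]; ring
  rcases mul_eq_zero.mp h3 with h | h
  · exact h
  · exact absurd (sub_eq_zero.mp h) hne

theorem gauss_cls (hl : 1 ≤ l) (k : ℤ) (hk : k ≠ 0) (T : ZMod (p ^ (2 * l))) :
    ‖∑ b ∈ cls p l, ee (p ^ (2 * l)) (k * (b : ZMod (p ^ (2 * l))) ^ 2 + T * b)‖ ≤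
      2 * |(k : ℝ)| * (p : ℝ) ^ l := by
  classical
  have hp : p.Prime := Fact.out
  have hp0 : (0 : ℝ) < p := Nat.cast_pos.mpr hp.pos
  set f : ZMod (p ^ (2 * l)) → ℂ := fun b => ee (p ^ (2 * l)) (k * b ^ 2 + T * b) with hf
  -- the shifted function
  have h1 : ∀ (b : ZMod (p ^ (2 * l))) (t : ℕ), f (b + (p : ZMod (p ^ (2 * l))) ^ l * t) =
      f b * ee (p ^ (2 * l)) ((p : ZMod (p ^ (2 * l))) ^ l * t * (2 * k * b + T)) := by
    intro b t
    simp only [hf]
    rw [← ee_add']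
    congr 1
    linear_combination (k : ZMod (p ^ (2 * l))) * (t : ZMod (p ^ (2 * l))) ^ 2 * ppow_sq (p := p) (l := l)
  have hshift : ∀ t : ℕ, ∑ b ∈ cls p l, f ((b : ZMod (p ^ (2 * l))) + (p : ZMod (p ^ (2 * l))) ^ l * t) =
      ∑ b ∈ cls p l, f b := by
    intro t
    have h2 := cls_shift hl ((p : ZMod (p ^ (2 * l))) ^ (l - 1) * (t : ZMod (p ^ (2 * l)))) f
    rw [← h2]
    refine sum_congr rfl fun b _ => ?_
    rw [← mul_assoc, ← pow_succ', show l - 1 + 1 = l by omega]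
  have h2 : (p : ℂ) ^ l * ∑ b ∈ cls p l, f b =
      ∑ b ∈ cls p l, f b * ∑ t ∈ range (p ^ l),
        ee (p ^ (2 * l)) ((p : ZMod (p ^ (2 * l))) ^ l * t * (2 * k * b + T)) := by
    calc (p : ℂ) ^ l * ∑ b ∈ cls p l, f b
        = ∑ t ∈ range (p ^ l), ∑ b ∈ cls p l, f b := by
          rw [sum_const, card_range, nsmul_eq_mul, Nat.cast_pow]
      _ = ∑ t ∈ range (p ^ l), ∑ b ∈ cls p l,
            f ((b : ZMod (p ^ (2 * l))) + (p : ZMod (p ^ (2 * l))) ^ l * t) := by
          refine sum_congr rfl fun t _ => ?_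
          rw [hshift t]
      _ = ∑ b ∈ cls p l, ∑ t ∈ range (p ^ l),
            f ((b : ZMod (p ^ (2 * l))) + (p : ZMod (p ^ (2 * l))) ^ l * t) := sum_comm
      _ = _ := by
          refine sum_congr rfl fun b _ => ?_
          rw [mul_sum]
          refine sum_congr rfl fun t _ => ?_
          rw [h1]
  -- the units with `p ^ l (2 k b + T) = 0`
  set B : Finset (ZMod (p ^ (2 * l)))ˣ :=
    (cls p l).filter (fun b : (ZMod (p ^ (2 * l)))ˣ => (p ^ l) • (2 * (k : ZMod (p ^ (2 * l))) * b + T) = 0) with hB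
  have h3 : ‖(p : ℂ) ^ l * ∑ b ∈ cls p l, f b‖ ≤ (B.card : ℝ) * (p : ℝ) ^ l := by
    rw [h2]
    refine (norm_sum_le _ _).trans ?_
    calc ∑ b ∈ cls p l, ‖f b * ∑ t ∈ range (p ^ l),
          ee (p ^ (2 * l)) ((p : ZMod (p ^ (2 * l))) ^ l * t * (2 * k * b + T))‖
        ≤ ∑ b ∈ cls p l,
            (if (p ^ l) • (2 * (k : ZMod (p ^ (2 * l))) * b + T) = 0 then (p : ℝ) ^ l else 0) := by
          refine sum_le_sum fun b _ => ?_
          rw [norm_mul]
          have : ‖f b‖ = 1 := norm_ee' _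
          rw [this, one_mul]
          exact sum_geom _
      _ = (B.card : ℝ) * (p : ℝ) ^ l := by
          rw [← sum_filter, sum_const, nsmul_eq_mul]
  -- the number of these units
  have h4 : B.card ≤ p ^ l * (2 * k.natAbs) := by
    rcases B.eq_empty_or_nonempty with he | ⟨b₀, hb₀⟩
    · rw [he, card_empty]
      exact Nat.zero_le _
    · have hn : 0 < p ^ l * (2 * k.natAbs) := by
        have := Int.natAbs_pos.mpr hk
        have := pow_pos hp.pos l
        positivity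
      have : IsAddCyclic (ZMod (p ^ (2 * l))) := inferInstance
      refine le_trans ?_ (IsAddCyclic.card_nsmul_eq_zero_le (α := ZMod (p ^ (2 * l))) hn)
      refine card_le_card_of_injOn
        (fun b : (ZMod (p ^ (2 * l)))ˣ => (b : ZMod (p ^ (2 * l))) - b₀) ?_ ?_
      · intro b hb
        rw [mem_coe, hB, mem_filter] at hb
        rw [hB, mem_filter] at hb₀
        rw [mem_coe, mem_filter]
        refine ⟨mem_univ _, ?_⟩
        have e1 : (p ^ l) • (2 * (k : ZMod (p ^ (2 * l))) * (b - b₀)) = 0 := by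
          have e2 := congrArg₂ (· - ·) hb.2 hb₀.2
          simp only [sub_zero] at e2
          rw [← nsmul_sub] at e2
          rw [← e2]
          congr 1
          ring
        have e3 : (p ^ l * (2 * k.natAbs)) • ((b : ZMod (p ^ (2 * l))) - b₀) = 
            (p ^ l) • (2 * ((k.natAbs : ℕ) : ZMod (p ^ (2 * l))) * (b - b₀)) := by
          simp only [nsmul_eq_mul]
          push_cast
          ring
        show (p ^ l * (2 * k.natAbs)) • ((b : ZMod (p ^ (2 * l))) - b₀) = 0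
        rw [e3]
        have e5 : ((k.natAbs : ℕ) : ZMod (p ^ (2 * l))) = ((|k| : ℤ) : ZMod (p ^ (2 * l))) := by
          rw [← Int.cast_natCast, Int.natCast_natAbs]
        rw [e5]
        rcases abs_choice k with h | h
        · rw [h]
          exact e1
        · rw [h]
          have e4 : (p ^ l) • (2 * ((-k : ℤ) : ZMod (p ^ (2 * l))) * ((b : ZMod (p ^ (2 * l))) - b₀)) =
              -((p ^ l) • (2 * (k : ZMod (p ^ (2 * l))) * ((b : ZMod (p ^ (2 * l))) - b₀))) := by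
            simp only [nsmul_eq_mul]
            push_cast
            ring
          rw [e4, e1, neg_zero]
      · intro b _ c _ hbc
        exact Units.ext (sub_left_injective hbc)
  have h5 : (0 : ℝ) < (p : ℝ) ^ l := pow_pos hp0 l
  have h6 : ‖∑ b ∈ cls p l, f b‖ ≤ B.card := by
    rw [norm_mul, norm_pow, Complex.norm_natCast, mul_comm] at h3
    exact le_of_mul_le_mul_right h3 h5
  have h7 : (B.card : ℝ) ≤ (p : ℝ) ^ l * (2 * |(k : ℝ)|) := by
    have e1 : (B.card : ℝ) ≤ ((p ^ l * (2 * k.natAbs) : ℕ) : ℝ) := by exact_mod_cast h4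
    have e2 : ((k.natAbs : ℕ) : ℝ) = |(k : ℝ)| := by
      rw [← Int.cast_abs, Int.abs_eq_natAbs]
      rfl
    push_cast at e1
    rw [e2] at e1
    exact e1
  calc ‖∑ b ∈ cls p l, f b‖ ≤ B.card := h6
    _ ≤ (p : ℝ) ^ l * (2 * |(k : ℝ)|) := h7
    _ = 2 * |(k : ℝ)| * (p : ℝ) ^ l := by ring

end

end Pool.Agent.Q275.ME
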