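import Pool.Agent.Y821.ME.Rz2

/-!
# Quadratic exponential sums over the units modulo `p ^ (2l)`

`‖∑_b e((k b² + t b) / p ^ (2l))‖ ≤ 2 |k| p ^ l`, the sum over the units modulo `p ^ (2l)`.
-/

set_option autoImplicit false

open Finset

namespace Pool.Agent.Q275.ME

open Pool.Agent.Y821.ME

section

variable {p l : ℕ} [Fact p.Prime]

theorem ee_add' (x y : ZMod (p ^ (2 * l))) : ee (p ^ (2 * l)) (x + y) = ee (p ^ (2 * l)) x * ee (p ^ (2 * l)) y := by
  simp only [ee]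
  rw [AddChar.map_add_eq_mul]

theorem norm_ee' (x : ZMod (p ^ (2 * l))) : ‖ee (p ^ (2 * l)) x‖ = 1 := by
  simp only [ee]
  rw [AddChar.norm_apply]

omit [Fact p.Prime] in
theorem ppow_nil : IsNilpotent ((p : ZMod (p ^ (2 * l))) ^ l) := by
  refine ⟨2, ?_⟩
  rw [← pow_mul, mul_comm l 2]
  have : ((p ^ (2 * l) : ℕ) : ZMod (p ^ (2 * l))) = 0 := ZMod.natCast_self _
  rw [Nat.cast_pow] at this
  exact this

omit [Fact p.Prime] in
theorem ppow_sq : ((p : ZMod (p ^ (2 * l))) ^ l) * ((p : ZMod (p ^ (2 * l))) ^ l) = 0 := by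
  rw [← pow_add, ← two_mul]
  have : ((p ^ (2 * l) : ℕ) : ZMod (p ^ (2 * l))) = 0 := ZMod.natCast_self _
  rw [Nat.cast_pow] at this
  exact this

/-- translation of the units by `p ^ l t` -/
theorem sum_shift (t : ℕ) (f : ZMod (p ^ (2 * l)) → ℂ) :
    ∑ b : (ZMod (p ^ (2 * l)))ˣ, f ((b : ZMod (p ^ (2 * l))) + (p : ZMod (p ^ (2 * l))) ^ l * t) =
      ∑ b : (ZMod (p ^ (2 * l)))ˣ, f b := by
  have hnil : IsNilpotent ((p : ZMod (p ^ (2 * l))) ^ l * (t : ZMod (p ^ (2 * l)))) :=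
    (Commute.all _ _).isNilpotent_mul_right ppow_nil
  have hu : ∀ b : (ZMod (p ^ (2 * l)))ˣ, IsUnit ((b : ZMod (p ^ (2 * l))) + (p : ZMod (p ^ (2 * l))) ^ l * t) :=
    fun b => hnil.isUnit_add_left_of_commute b.isUnit (Commute.all _ _)
  let σ : (ZMod (p ^ (2 * l)))ˣ → (ZMod (p ^ (2 * l)))ˣ := fun b => (hu b).unit
  have hσ : ∀ b, ((σ b : (ZMod (p ^ (2 * l)))ˣ) : ZMod (p ^ (2 * l))) = b + (p : ZMod (p ^ (2 * l))) ^ l * t :=
    fun b => rfl
  have hinj : Function.Injective σ := by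
    intro a b hab
    have h1 : ((σ a : (ZMod (p ^ (2 * l)))ˣ) : ZMod (p ^ (2 * l))) = σ b := by rw [hab]
    rw [hσ, hσ] at h1
    exact Units.ext (add_right_cancel h1)
  have hbij : Function.Bijective σ := Finite.injective_iff_bijective.mp hinj
  rw [← hbij.sum_comp (fun b : (ZMod (p ^ (2 * l)))ˣ => f b)]
  rfl

/-- the geometric sum -/
theorem sum_geom (y : ZMod (p ^ (2 * l))) :
    ‖∑ t ∈ range (p ^ l), ee (p ^ (2 * l)) ((p : ZMod (p ^ (2 * l))) ^ l * t * y)‖ ≤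
      if (p ^ l) • y = 0 then (p : ℝ) ^ l else 0 := by
  split_ifs with h
  · refine (norm_sum_le _ _).trans ?_
    simp only [norm_ee', sum_const, card_range, nsmul_eq_mul, mul_one, Nat.cast_pow, le_refl]
  · have h1 : (p : ZMod (p ^ (2 * l))) ^ l * y ≠ 0 := by
      intro h0
      apply h
      rw [nsmul_eq_mul, Nat.cast_pow]
      exact h0
    set z : ℂ := ee (p ^ (2 * l)) ((p : ZMod (p ^ (2 * l))) ^ l * y) with hz
    have hz1 : z ≠ 1 := by
      intro h2
      apply h1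
      apply ZMod.injective_stdAddChar (N := p ^ (2 * l))
      rw [AddChar.map_zero_eq_one]
      exact h2
    have h2 : ∀ t : ℕ, ee (p ^ (2 * l)) ((p : ZMod (p ^ (2 * l))) ^ l * t * y) = z ^ t := by
      intro t
      rw [hz]
      simp only [ee]
      rw [← AddChar.map_nsmul_eq_pow, nsmul_eq_mul]
      congr 1
      ring
    simp only [h2]
    rw [geom_sum_eq hz1]
    have h3 : z ^ (p ^ l) = 1 := by
      rw [← h2, Nat.cast_pow, ppow_sq, zero_mul]
      simp [ee]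
    rw [h3, sub_self, zero_div, norm_zero]

theorem gauss_bound (k : ℤ) (hk : k ≠ 0) (T : ZMod (p ^ (2 * l))) :
    ‖∑ b : (ZMod (p ^ (2 * l)))ˣ, ee (p ^ (2 * l)) (k * (b : ZMod (p ^ (2 * l))) ^ 2 + T * b)‖ ≤
      2 * |(k : ℝ)| * (p : ℝ) ^ l := by
  classical
  have hp : p.Prime := Fact.out
  have hp0 : (0 : ℝ) < p := Nat.cast_pos.mpr hp.pos
  set f : ZMod (p ^ (2 * l)) → ℂ := fun b => ee (p ^ (2 * l)) (k * b ^ 2 + T * b) with hf
  -- the shifted function
  have h1 : ∀ (b : ZMod (p ^ (2 * l))) (t : ℕ), f (b + (p : ZMod (p ^ (2 * l))) ^ l * t) =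
      f b * ee (p ^ (2 * l)) ((p : ZMod (p ^ (2 * l))) ^ l * t * (2 * k * b + T)) := by
    intro b t
    simp only [hf]
    rw [← ee_add']
    congr 1
    linear_combination (k : ZMod (p ^ (2 * l))) * (t : ZMod (p ^ (2 * l))) ^ 2 * ppow_sq (p := p) (l := l)
  have h2 : (p : ℂ) ^ l * ∑ b : (ZMod (p ^ (2 * l)))ˣ, f b =
      ∑ b : (ZMod (p ^ (2 * l)))ˣ, f b * ∑ t ∈ range (p ^ l),
        ee (p ^ (2 * l)) ((p : ZMod (p ^ (2 * l))) ^ l * t * (2 * k * b + T)) := by
    calc (p : ℂ) ^ l * ∑ b : (ZMod (p ^ (2 * l)))ˣ, f b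
        = ∑ t ∈ range (p ^ l), ∑ b : (ZMod (p ^ (2 * l)))ˣ, f b := by
          rw [sum_const, card_range, nsmul_eq_mul, Nat.cast_pow]
      _ = ∑ t ∈ range (p ^ l), ∑ b : (ZMod (p ^ (2 * l)))ˣ,
            f ((b : ZMod (p ^ (2 * l))) + (p : ZMod (p ^ (2 * l))) ^ l * t) := by
          refine sum_congr rfl fun t _ => ?_
          rw [sum_shift t f]
      _ = ∑ b : (ZMod (p ^ (2 * l)))ˣ, ∑ t ∈ range (p ^ l),
            f ((b : ZMod (p ^ (2 * l))) + (p : ZMod (p ^ (2 * l))) ^ l * t) := sum_comm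
      _ = _ := by
          refine sum_congr rfl fun b _ => ?_
          rw [mul_sum]
          refine sum_congr rfl fun t _ => ?_
          rw [h1]
  -- the units with `p ^ l (2 k b + T) = 0`
  set B : Finset (ZMod (p ^ (2 * l)))ˣ :=
    univ.filter (fun b : (ZMod (p ^ (2 * l)))ˣ => (p ^ l) • (2 * (k : ZMod (p ^ (2 * l))) * b + T) = 0) with hB
  have h3 : ‖(p : ℂ) ^ l * ∑ b : (ZMod (p ^ (2 * l)))ˣ, f b‖ ≤ (B.card : ℝ) * (p : ℝ) ^ l := by
    rw [h2]
    refine (norm_sum_le _ _).trans ?_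
    calc ∑ b : (ZMod (p ^ (2 * l)))ˣ, ‖f b * ∑ t ∈ range (p ^ l),
          ee (p ^ (2 * l)) ((p : ZMod (p ^ (2 * l))) ^ l * t * (2 * k * b + T))‖
        ≤ ∑ b : (ZMod (p ^ (2 * l)))ˣ,
            (if (p ^ l) • (2 * (k : ZMod (p ^ (2 * l))) * b + T) = 0 then (p : ℝ) ^ l else 0) := by
          refine sum_le_sum fun b _ => ?_
          rw [norm_mul]
          have : ‖f b‖ = 1 := norm_ee' _
          rw [this, one_mul]
          exact sum_geom _
      _ = (B.card : ℝ) * (p : ℝ) ^ l := by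
          rw [← sum_filter, sum_const, nsmul_eq_mul]
  -- the number of these units
  have h4 : B.card ≤ p ^ l * (2 * k.natAbs) := by
    rcases B.eq_empty_or_nonempty with he | ⟨b₀, hb₀⟩
    · rw [he, card_empty]
      exact Nat.zero_le _
    · have hn : 0 < p ^ l * (2 * k.natAbs) := by
        have := Int.natAbs_pos.mpr hk
        have := pow_pos hp.pos l
        positivity
      have : IsAddCyclic (ZMod (p ^ (2 * l))) := inferInstance
      refine le_trans ?_ (IsAddCyclic.card_nsmul_eq_zero_le (α := ZMod (p ^ (2 * l))) hn)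
      refine card_le_card_of_injOn
        (fun b : (ZMod (p ^ (2 * l)))ˣ => (b : ZMod (p ^ (2 * l))) - b₀) ?_ ?_
      · intro b hb
        rw [mem_coe, hB, mem_filter] at hb
        rw [hB, mem_filter] at hb₀
        rw [mem_coe, mem_filter]
        refine ⟨mem_univ _, ?_⟩
        have e1 : (p ^ l) • (2 * (k : ZMod (p ^ (2 * l))) * (b - b₀)) = 0 := by
          have e2 := congrArg₂ (· - ·) hb.2 hb₀.2
          simp only [sub_zero] at e2
          rw [← nsmul_sub] at e2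
          rw [← e2]
          congr 1
          ring
        have e3 : (p ^ l * (2 * k.natAbs)) • ((b : ZMod (p ^ (2 * l))) - b₀) = 
            (p ^ l) • (2 * ((k.natAbs : ℕ) : ZMod (p ^ (2 * l))) * (b - b₀)) := by
          simp only [nsmul_eq_mul]
          push_cast
          ring
        show (p ^ l * (2 * k.natAbs)) • ((b : ZMod (p ^ (2 * l))) - b₀) = 0
        rw [e3]
        have e5 : ((k.natAbs : ℕ) : ZMod (p ^ (2 * l))) = ((|k| : ℤ) : ZMod (p ^ (2 * l))) := by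
          rw [← Int.cast_natCast, Int.natCast_natAbs]
        rw [e5]
        rcases abs_choice k with h | h
        · rw [h]
          exact e1
        · rw [h]
          have e4 : (p ^ l) • (2 * ((-k : ℤ) : ZMod (p ^ (2 * l))) * ((b : ZMod (p ^ (2 * l))) - b₀)) =
              -((p ^ l) • (2 * (k : ZMod (p ^ (2 * l))) * ((b : ZMod (p ^ (2 * l))) - b₀))) := by
            simp only [nsmul_eq_mul]
            push_cast
            ring
          rw [e4, e1, neg_zero]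
      · intro b _ c _ hbc
        exact Units.ext (sub_left_injective hbc)
  have h5 : (0 : ℝ) < (p : ℝ) ^ l := pow_pos hp0 l
  have h6 : ‖∑ b : (ZMod (p ^ (2 * l)))ˣ, f b‖ ≤ B.card := by
    rw [norm_mul, norm_pow, Complex.norm_natCast, mul_comm] at h3
    exact le_of_mul_le_mul_right h3 h5
  have h7 : (B.card : ℝ) ≤ (p : ℝ) ^ l * (2 * |(k : ℝ)|) := by
    have e1 : (B.card : ℝ) ≤ ((p ^ l * (2 * k.natAbs) : ℕ) : ℝ) := by exact_mod_cast h4
    have e2 : ((k.natAbs : ℕ) : ℝ) = |(k : ℝ)| := by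
      rw [← Int.cast_abs, Int.abs_eq_natAbs]
      rfl
    push_cast at e1
    rw [e2] at e1
    exact e1
  calc ‖∑ b : (ZMod (p ^ (2 * l)))ˣ, f b‖ ≤ B.card := h6
    _ ≤ (p : ℝ) ^ l * (2 * |(k : ℝ)|) := h7
    _ = 2 * |(k : ℝ)| * (p : ℝ) ^ l := by ring

end

end Pool.Agent.Q275.ME
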