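import Pool.Agent.Q275.ME.Cls

/-!
# Riesz products on the units modulo `p ^ (2l)` which are `1` modulo `p`

After `Pool.Agent.Y821.ME.Rz2` (helper864, helper821), with a bound for the correlations with
`e((k b² + t b) / p ^ (2l))`, `k ≠ 0`.
-/

set_option autoImplicit false

open Filter Topology MeasureTheory Finset

namespace Pool.Agent.Q275.ME

open Pool.Agent.Y821.ME

section

variable {p l : ℕ} [Fact p.Prime]

open RZ2 in
theorem fac_bound_cls (R : ℤ → ZMod (p ^ (2 * l))) (ν : ℤ → ℂ) (hν : ∀ j, ‖ν j‖ ≤ 1) (k : ℤ) (G : ℝ)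
    (hG : ∀ T : ZMod (p ^ (2 * l)), ‖∑ b ∈ cls p l,
      ee (p ^ (2 * l)) (k * (b : ZMod (p ^ (2 * l))) ^ 2 + T * b)‖ ≤ G) (S : Finset ℤ) :
    ∀ T : ZMod (p ^ (2 * l)), ‖∑ b ∈ cls p l,
      (∏ j ∈ S, fac (p ^ (2 * l)) R ν (b : ZMod (p ^ (2 * l))) j) *
        ee (p ^ (2 * l)) (k * (b : ZMod (p ^ (2 * l))) ^ 2 + T * b)‖ ≤ 2 ^ S.card * G := by
  classical
  induction S using Finset.induction_on with
  | empty =>
    intro T
    simpa using hG T
  | insert j S hj ih =>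
    intro T
    have hexp : ∑ b ∈ cls p l,
        (∏ i ∈ insert j S, fac (p ^ (2 * l)) R ν (b : ZMod (p ^ (2 * l))) i) *
          ee (p ^ (2 * l)) (k * (b : ZMod (p ^ (2 * l))) ^ 2 + T * b) =
        ∑ b ∈ cls p l, (∏ i ∈ S, fac (p ^ (2 * l)) R ν (b : ZMod (p ^ (2 * l))) i) *
          ee (p ^ (2 * l)) (k * (b : ZMod (p ^ (2 * l))) ^ 2 + T * b) +
        (ν j / 2 * ∑ b ∈ cls p l, (∏ i ∈ S, fac (p ^ (2 * l)) R ν (b : ZMod (p ^ (2 * l))) i) *
          ee (p ^ (2 * l)) (k * (b : ZMod (p ^ (2 * l))) ^ 2 + (T + 2 * R j) * b) +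
        ν j / 2 * ∑ b ∈ cls p l, (∏ i ∈ S, fac (p ^ (2 * l)) R ν (b : ZMod (p ^ (2 * l))) i) *
          ee (p ^ (2 * l)) (k * (b : ZMod (p ^ (2 * l))) ^ 2 + (T - 2 * R j) * b)) := by
      rw [Finset.mul_sum (s := cls p l),
        Finset.mul_sum (s := cls p l), ← Finset.sum_add_distrib,
        ← Finset.sum_add_distrib]
      refine Finset.sum_congr rfl fun b _ => ?_
      rw [Finset.prod_insert hj]
      have e1 : (k : ZMod (p ^ (2 * l))) * (b : ZMod (p ^ (2 * l))) ^ 2 + (T + 2 * R j) * b =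
          (k * (b : ZMod (p ^ (2 * l))) ^ 2 + T * b) + 2 * b * R j := by ring
      have e2 : (k : ZMod (p ^ (2 * l))) * (b : ZMod (p ^ (2 * l))) ^ 2 + (T - 2 * R j) * b =
          (k * (b : ZMod (p ^ (2 * l))) ^ 2 + T * b) + -(2 * b * R j) := by ring
      rw [e1, e2]
      generalize (k : ZMod (p ^ (2 * l))) * (b : ZMod (p ^ (2 * l))) ^ 2 + T * b = z
      rw [ee_add' z, ee_add' z]
      simp only [fac]
      ring
    rw [hexp]
    have h0 := ih T
    have h1 := ih (T + 2 * R j)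
    have h2 := ih (T - 2 * R j)
    have hG0 : 0 ≤ 2 ^ S.card * G := (norm_nonneg _).trans h0
    have hν2 : ‖ν j / 2‖ ≤ 1 / 2 := by
      rw [norm_div, Complex.norm_ofNat]
      have := hν j
      linarith
    refine (norm_add_le _ _).trans ?_
    have h3 := norm_add_le
      (ν j / 2 * ∑ b ∈ cls p l, (∏ i ∈ S, fac (p ^ (2 * l)) R ν (b : ZMod (p ^ (2 * l))) i) *
          ee (p ^ (2 * l)) (k * (b : ZMod (p ^ (2 * l))) ^ 2 + (T + 2 * R j) * b))
      (ν j / 2 * ∑ b ∈ cls p l, (∏ i ∈ S, fac (p ^ (2 * l)) R ν (b : ZMod (p ^ (2 * l))) i) *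
          ee (p ^ (2 * l)) (k * (b : ZMod (p ^ (2 * l))) ^ 2 + (T - 2 * R j) * b))
    rw [norm_mul, norm_mul] at h3
    have h4 := mul_le_mul hν2 h1 (norm_nonneg _) (by norm_num)
    have h5 := mul_le_mul hν2 h2 (norm_nonneg _) (by norm_num)
    rw [Finset.card_insert_of_notMem hj, pow_succ]
    linarith


end

open RZ2 in
/-- the product formula -/
theorem riesz_cls (p l : ℕ) [Fact p.Prime] (hl : 1 ≤ l) (SF : Finset ℤ) (R : ℤ → ZMod (p ^ (2 * l))) (ν : ℤ → ℂ)
    (hR : ∀ h : ℤ → ℤ, (∀ m ∈ SF, |h m| ≤ 2) → (∃ m ∈ SF, h m ≠ 0) →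
      (p : ZMod (p ^ (2 * l))) * (2 * ∑ m ∈ SF, (h m : ZMod (p ^ (2 * l))) * R m) ≠ 0)
    (S : Finset ℤ) : S ⊆ SF → ∀ g : ℤ → ℤ, (∀ m ∈ SF, |g m| ≤ 2) → (∀ m ∈ S, |g m| ≤ 1) →
    ∑ b ∈ cls p l, (∏ j ∈ S, fac (p ^ (2 * l)) R ν (b : ZMod (p ^ (2 * l))) j) *
        ee (p ^ (2 * l)) ((b : ZMod (p ^ (2 * l))) * (2 * ∑ m ∈ SF, (g m : ZMod (p ^ (2 * l))) * R m)) =
      ((cls p l).card : ℂ) * ∏ m ∈ SF, cc ν S m (g m) := by
  classical
  induction S using Finset.induction_on with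
  | empty =>
    intro _ g hg _
    by_cases h0 : ∃ m ∈ SF, g m ≠ 0
    · have h1 := sum_cls_eq_zero hl _ (hR g hg h0)
      simp only [Finset.prod_empty, one_mul]
      rw [h1]
      obtain ⟨m, hm, hm0⟩ := h0
      rw [Finset.prod_eq_zero hm, mul_zero]
      simp [cc, hm0]
    · push Not at h0
      have h1 : ∑ m ∈ SF, (g m : ZMod (p ^ (2 * l))) * R m = 0 := by
        apply Finset.sum_eq_zero
        intro m hm
        rw [h0 m hm]; simp
      have h2 : ∏ m ∈ SF, cc ν ∅ m (g m) = 1 := by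
        apply Finset.prod_eq_one
        intro m hm
        simp [cc, h0 m hm]
      rw [h1, h2]
      simp [ee]
  | insert j S hj ih =>
    intro hS g hg hg1
    have hjSF : j ∈ SF := hS (Finset.mem_insert_self j S)
    have hS' : S ⊆ SF := fun x hx => hS (Finset.mem_insert_of_mem hx)
    have hgj : |g j| ≤ 1 := hg1 j (Finset.mem_insert_self j S)
    -- the three functions
    have hup : ∀ (e : ℤ), |e| ≤ 1 → 
        (∀ m ∈ SF, |(Function.update g j (g j + e)) m| ≤ 2) ∧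
        (∀ m ∈ S, |(Function.update g j (g j + e)) m| ≤ 1) ∧
        (∑ m ∈ SF, ((Function.update g j (g j + e)) m : ZMod (p ^ (2 * l))) * R m =
          ∑ m ∈ SF, (g m : ZMod (p ^ (2 * l))) * R m + e * R j) := by
      intro e he
      refine ⟨?_, ?_, ?_⟩
      · intro m hm
        by_cases hmj : m = j
        · subst hmj
          rw [Function.update_self]
          calc |g m + e| ≤ |g m| + |e| := abs_add_le _ _
            _ ≤ 2 := by linarith
        · rw [Function.update_of_ne hmj]; exact hg m hm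
      · intro m hm
        have hmj : m ≠ j := fun h => hj (h ▸ hm)
        rw [Function.update_of_ne hmj]
        exact hg1 m (Finset.mem_insert_of_mem hm)
      · rw [← Finset.add_sum_erase SF _ hjSF, ← Finset.add_sum_erase SF _ hjSF]
        rw [Function.update_self]
        have : ∑ x ∈ SF.erase j, ((Function.update g j (g j + e)) x : ZMod (p ^ (2 * l))) * R x =
            ∑ x ∈ SF.erase j, (g x : ZMod (p ^ (2 * l))) * R x := by
          apply Finset.sum_congr rfl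
          intro x hx
          rw [Function.update_of_ne (Finset.ne_of_mem_erase hx)]
        rw [this]
        push_cast
        ring
    have hprod : ∀ (S' : Finset ℤ) (g' : ℤ → ℤ), ∏ m ∈ SF, cc ν S' m (g' m) =
        cc ν S' j (g' j) * ∏ m ∈ SF.erase j, cc ν S' m (g' m) := fun S' g' =>
      (Finset.mul_prod_erase SF _ hjSF).symm
    have hprod2 : ∀ (e : ℤ), ∏ m ∈ SF.erase j, cc ν S m ((Function.update g j (g j + e)) m) =
        ∏ m ∈ SF.erase j, cc ν (insert j S) m (g m) := by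
      intro e
      apply Finset.prod_congr rfl
      intro x hx
      have hxj := Finset.ne_of_mem_erase hx
      rw [Function.update_of_ne hxj]
      simp only [cc, Finset.mem_insert, hxj, false_or]
    have hprod3 : ∏ m ∈ SF.erase j, cc ν S m (g m) =
        ∏ m ∈ SF.erase j, cc ν (insert j S) m (g m) := by
      apply Finset.prod_congr rfl
      intro x hx
      have hxj := Finset.ne_of_mem_erase hx
      simp only [cc, Finset.mem_insert, hxj, false_or]
    have T0 := ih hS' g hg (fun m hm => hg1 m (Finset.mem_insert_of_mem hm))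
    have hu1 := hup 1 (by norm_num)
    have hu2 := hup (-1) (by norm_num)
    have T1 := ih hS' _ hu1.1 hu1.2.1
    have T2 := ih hS' _ hu2.1 hu2.2.1
    rw [hu1.2.2] at T1
    rw [hu2.2.2] at T2
    have hexp : ∀ b : (ZMod (p ^ (2 * l)))ˣ,
        (∏ i ∈ insert j S, fac (p ^ (2 * l)) R ν (b : ZMod (p ^ (2 * l))) i) *
          ee (p ^ (2 * l)) ((b : ZMod (p ^ (2 * l))) * (2 * ∑ m ∈ SF, (g m : ZMod (p ^ (2 * l))) * R m)) =
        (∏ i ∈ S, fac (p ^ (2 * l)) R ν (b : ZMod (p ^ (2 * l))) i) *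
          ee (p ^ (2 * l)) ((b : ZMod (p ^ (2 * l))) * (2 * ∑ m ∈ SF, (g m : ZMod (p ^ (2 * l))) * R m)) +
        ν j / 2 * ((∏ i ∈ S, fac (p ^ (2 * l)) R ν (b : ZMod (p ^ (2 * l))) i) *
          ee (p ^ (2 * l)) ((b : ZMod (p ^ (2 * l))) * (2 * (∑ m ∈ SF, (g m : ZMod (p ^ (2 * l))) * R m + ((1 : ℤ) : ZMod (p ^ (2 * l))) * R j)))) +
        ν j / 2 * ((∏ i ∈ S, fac (p ^ (2 * l)) R ν (b : ZMod (p ^ (2 * l))) i) *
          ee (p ^ (2 * l)) ((b : ZMod (p ^ (2 * l))) * (2 * (∑ m ∈ SF, (g m : ZMod (p ^ (2 * l))) * R m + ((-1 : ℤ) : ZMod (p ^ (2 * l))) * R j)))) := by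
      intro b
      rw [Finset.prod_insert hj]
      have e1 : (b : ZMod (p ^ (2 * l))) * (2 * (∑ m ∈ SF, (g m : ZMod (p ^ (2 * l))) * R m + ((1 : ℤ) : ZMod (p ^ (2 * l))) * R j)) =
          (b : ZMod (p ^ (2 * l))) * (2 * ∑ m ∈ SF, (g m : ZMod (p ^ (2 * l))) * R m) + 2 * b * R j := by
        push_cast; ring
      have e2 : (b : ZMod (p ^ (2 * l))) * (2 * (∑ m ∈ SF, (g m : ZMod (p ^ (2 * l))) * R m + ((-1 : ℤ) : ZMod (p ^ (2 * l))) * R j)) =
          (b : ZMod (p ^ (2 * l))) * (2 * ∑ m ∈ SF, (g m : ZMod (p ^ (2 * l))) * R m) + -(2 * b * R j) := by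
        push_cast; ring
      rw [e1, e2]
      simp only [fac, ee]
      rw [AddChar.map_add_eq_mul, AddChar.map_add_eq_mul]
      ring
    rw [Finset.sum_congr rfl (fun b _ => hexp b)]
    rw [Finset.sum_add_distrib, Finset.sum_add_distrib, ← Finset.mul_sum, ← Finset.mul_sum, T0, T1, T2]
    rw [hprod S g, hprod S (Function.update g j (g j + 1)), hprod S (Function.update g j (g j + -1)),
      hprod (insert j S) g, hprod2, hprod2, hprod3]
    rw [Function.update_self, Function.update_self]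
    have hkey : cc ν S j (g j) + ν j / 2 * cc ν S j (g j + 1) + ν j / 2 * cc ν S j (g j + -1) =
        cc ν (insert j S) j (g j) := by
      rw [abs_le] at hgj
      have hc : g j = -1 ∨ g j = 0 ∨ g j = 1 := by omega
      rcases hc with h | h | h
      · rw [h]; simp [cc, hj]
      · rw [h]; simp [cc, hj]
      · rw [h]; simp [cc, hj]
    rw [← hkey]
    ring


open RZ2 in
open Classical in
/-- Riesz products modulo `p ^ (2l)`, with bounds for the correlations with quadratic phases -/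
theorem rz5 (hli : S_LI2) (Y p : ℕ) [Fact p.Prime] (hp2 : p ≠ 2) (S : Finset ℤ) (hS : S ⊆ Gs Y p) :
    ∃ l₀ : ℕ, 1 ≤ l₀ ∧ ∀ l : ℕ, l₀ ≤ l → ∃ r : ℤ → (ZMod (p ^ (2 * l)))ˣ,
    (∀ g ∈ Gs Y p, (g : ZMod (p ^ (2 * l))) * (r g : ZMod (p ^ (2 * l))) ^ 2 = 1) ∧
    ∃ w : (ZMod (p ^ (2 * l)))ˣ → ℝ, (∀ b, 0 ≤ w b) ∧ ∑ b, w b = 1 ∧ (∀ b, w b ≠ 0 → b ∈ cls p l) ∧
      (∀ g ∈ Gs Y p, ∑ b, (w b : ℂ) * ee (p ^ (2 * l)) (2 * (b : ZMod (p ^ (2 * l))) * r g) =
          if g ∈ S then ((ArithmeticFunction.moebius g.natAbs : ℤ) : ℂ) / 2 else 0) ∧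
      ∀ (k : ℤ) (T : ZMod (p ^ (2 * l))), k ≠ 0 →
        ‖∑ b : (ZMod (p ^ (2 * l)))ˣ, (w b : ℂ) *
          ee (p ^ (2 * l)) (k * (b : ZMod (p ^ (2 * l))) ^ 2 + T * b)‖ ≤
          2 ^ S.card * (2 * |(k : ℝ)| * p) / (p : ℝ) ^ l := by
  obtain ⟨ρ, hρ1, hρ2⟩ := hli Y p hp2
  set SF := Gs Y p with hSF
  obtain ⟨n0, hn0⟩ := uniform p SF ρ hρ2
  refine ⟨n0 + 1, by omega, ?_⟩
  intro l hl0
  have hl1 : 1 ≤ l := by omega
  have hl2 : n0 ≤ 2 * l - 1 := by omega
  have hm1 : ∀ m ∈ SF, (m : ZMod (p ^ (2 * l))) * (PadicInt.toZModPow (2 * l) (ρ m)) ^ 2 = 1 := by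
    intro m h1
    have := congrArg (PadicInt.toZModPow (p := p) (2 * l)) (hρ1 m h1)
    rw [map_mul, map_pow, map_intCast, map_one] at this
    exact this
  let r : ℤ → (ZMod (p ^ (2 * l)))ˣ := fun m =>
    if h : IsUnit (PadicInt.toZModPow (p := p) (2 * l) (ρ m)) then h.unit else 1
  have hr : ∀ m ∈ SF, ((r m : (ZMod (p ^ (2 * l)))ˣ) : ZMod (p ^ (2 * l))) = PadicInt.toZModPow (2 * l) (ρ m) := by
    intro m h1
    have hu : IsUnit (PadicInt.toZModPow (p := p) (2 * l) (ρ m)) := by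
      have := hm1 m h1
      apply IsUnit.of_mul_eq_one ((m : ZMod (p ^ (2 * l))) * PadicInt.toZModPow (2 * l) (ρ m))
      rw [← this]; ring
    simp only [r]
    rw [dif_pos hu]
    rfl
  refine ⟨r, fun m h1 => by rw [hr m h1]; exact hm1 m h1, ?_⟩
  set R : ℤ → ZMod (p ^ (2 * l)) := fun m => ((r m : (ZMod (p ^ (2 * l)))ˣ) : ZMod (p ^ (2 * l))) with hRdef
  have hR : ∀ h : ℤ → ℤ, (∀ m ∈ SF, |h m| ≤ 2) → (∃ m ∈ SF, h m ≠ 0) →
      (p : ZMod (p ^ (2 * l))) * (2 * ∑ m ∈ SF, (h m : ZMod (p ^ (2 * l))) * R m) ≠ 0 := by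
    intro h hb hne h0
    apply hn0 h hb hne
    have h1 : (2 * ∑ m ∈ SF, (h m : ZMod (p ^ (2 * l))) * R m) =
        PadicInt.toZModPow (2 * l) (2 * ∑ m ∈ SF, (h m : ℤ_[p]) * ρ m) := by
      rw [map_mul, map_sum, map_ofNat]
      congr 1
      apply Finset.sum_congr rfl
      intro m hm
      rw [map_mul, map_intCast, ← hr m hm]
    rw [h1] at h0
    exact (pow_dvd_pow _ hl2).trans (dvd_of_mul_eq_zero p l hl1 _ h0)
  let ν : ℤ → ℂ := fun m => ((ArithmeticFunction.moebius m.natAbs : ℤ) : ℂ)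
  have hri := riesz_cls p l hl1 SF R ν hR S hS
  have hclsge := card_cls_ge (p := p) (l := l) hl1
  have hclspos : 0 < (cls p l).card := lt_of_lt_of_le (pow_pos (Fact.out : p.Prime).pos _) hclsge
  have hcard : (0 : ℝ) < ((cls p l).card : ℝ) := by exact_mod_cast hclspos
  have hcardC : ((cls p l).card : ℂ) ≠ 0 := by exact_mod_cast hclspos.ne'
  let w : (ZMod (p ^ (2 * l)))ˣ → ℝ := fun b => if b ∈ cls p l then ((cls p l).card : ℝ)⁻¹ *
    ∏ j ∈ S, (1 + ((ArithmeticFunction.moebius j.natAbs : ℤ) : ℝ) * (ee (p ^ (2 * l)) (2 * (b : ZMod (p ^ (2 * l))) * r j)).re)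
    else 0
  have hconj : ∀ x : ZMod (p ^ (2 * l)), ee (p ^ (2 * l)) x + ee (p ^ (2 * l)) (-x) = 2 * ((ee (p ^ (2 * l)) x).re : ℂ) := by
    intro x
    have : ee (p ^ (2 * l)) (-x) = (starRingEnd ℂ) (ee (p ^ (2 * l)) x) := by
      simp only [ee]
      exact AddChar.map_neg_eq_conj _ _
    rw [this, Complex.add_conj]
    push_cast
    ring
  have hnorm : ∀ x : ZMod (p ^ (2 * l)), |(ee (p ^ (2 * l)) x).re| ≤ 1 := by
    intro x
    refine (Complex.abs_re_le_norm _).trans ?_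
    simp only [ee]
    rw [AddChar.norm_apply]
  have hwC : ∀ b ∈ cls p l, (w b : ℂ) = ((cls p l).card : ℂ)⁻¹ *
      ∏ j ∈ S, fac (p ^ (2 * l)) R ν (b : ZMod (p ^ (2 * l))) j := by
    intro b hb
    simp only [w, if_pos hb]
    push_cast
    congr 1
    apply Finset.prod_congr rfl
    intro j _
    simp only [fac, hconj, ν, R]
    ring
  have hsumw : ∀ φ : (ZMod (p ^ (2 * l)))ˣ → ℂ, ∑ b : (ZMod (p ^ (2 * l)))ˣ, (w b : ℂ) * φ b =
      ((cls p l).card : ℂ)⁻¹ * ∑ b ∈ cls p l, (∏ j ∈ S, fac (p ^ (2 * l)) R ν (b : ZMod (p ^ (2 * l))) j) * φ b := by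
    intro φ
    rw [Finset.mul_sum (s := cls p l), ← Finset.sum_subset (Finset.subset_univ (cls p l))]
    · refine Finset.sum_congr rfl fun b hb => ?_
      rw [hwC b hb]
      ring
    · intro b _ hb
      simp only [w, if_neg hb, Complex.ofReal_zero, zero_mul]
  have hmain : ∀ g : ℤ → ℤ, (∀ m ∈ SF, |g m| ≤ 1) →
      ∑ b : (ZMod (p ^ (2 * l)))ˣ, (w b : ℂ) *
        ee (p ^ (2 * l)) ((b : ZMod (p ^ (2 * l))) * (2 * ∑ m ∈ SF, (g m : ZMod (p ^ (2 * l))) * R m)) =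
      ∏ m ∈ SF, cc ν S m (g m) := by
    intro g hg
    have h1 := hri g (fun m hm => (hg m hm).trans (by norm_num)) (fun m hm => hg m (hS hm))
    rw [hsumw, h1, ← mul_assoc, inv_mul_cancel₀ hcardC, one_mul]
  refine ⟨w, ?_, ?_, ?_, ?_, ?_⟩
  · intro b
    simp only [w]
    split_ifs
    swap
    · exact le_rfl
    apply mul_nonneg (inv_nonneg.mpr hcard.le)
    apply Finset.prod_nonneg
    intro j _
    have h1 := hnorm (2 * (b : ZMod (p ^ (2 * l))) * r j)
    have h2 : |((ArithmeticFunction.moebius j.natAbs : ℤ) : ℝ)| ≤ 1 := by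
      exact_mod_cast ArithmeticFunction.abs_moebius_le_one (n := j.natAbs)
    have h3 : |((ArithmeticFunction.moebius j.natAbs : ℤ) : ℝ) * (ee (p ^ (2 * l)) (2 * (b : ZMod (p ^ (2 * l))) * r j)).re| ≤ 1 := by
      rw [abs_mul]
      calc _ ≤ 1 * 1 := mul_le_mul h2 h1 (abs_nonneg _) zero_le_one
        _ = 1 := by norm_num
    linarith [(abs_le.mp h3).1]
  · have h1 := hmain (fun _ => 0) (fun m _ => by norm_num)
    have h2 : ∏ m ∈ SF, cc ν S m ((fun _ => (0 : ℤ)) m) = 1 := by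
      apply Finset.prod_eq_one
      intro m _
      simp [cc]
    rw [h2] at h1
    have h3 : ((∑ b, w b : ℝ) : ℂ) = 1 := by
      rw [← h1]
      push_cast
      apply Finset.sum_congr rfl
      intro b _
      simp [ee]
    exact_mod_cast h3
  · intro b hb
    by_contra hb'
    apply hb
    simp only [w, if_neg hb']
  · intro m hm
    let g : ℤ → ℤ := fun j => if j = m then 1 else 0
    have h1 := hmain g (fun j _ => by simp only [g]; split_ifs <;> norm_num)
    have h2 : ∏ j ∈ SF, cc ν S j (g j) = cc ν S m 1 := by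
      rw [← Finset.mul_prod_erase SF _ hm]
      have : ∏ j ∈ SF.erase m, cc ν S j (g j) = 1 := by
        apply Finset.prod_eq_one
        intro j hj
        simp only [g, if_neg (Finset.ne_of_mem_erase hj)]
        simp [cc]
      rw [this, mul_one]
      simp [g]
    have h3 : ∑ j ∈ SF, (g j : ZMod (p ^ (2 * l))) * R j = R m := by
      rw [← Finset.add_sum_erase SF _ hm]
      have : ∑ j ∈ SF.erase m, (g j : ZMod (p ^ (2 * l))) * R j = 0 := by
        apply Finset.sum_eq_zero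
        intro j hj
        simp only [g, if_neg (Finset.ne_of_mem_erase hj)]
        simp
      rw [this, add_zero]
      simp [g]
    rw [h2, h3] at h1
    have h4 : ∑ b, (w b : ℂ) * ee (p ^ (2 * l)) (2 * (b : ZMod (p ^ (2 * l))) * r m) = cc ν S m 1 := by
      rw [← h1]
      apply Finset.sum_congr rfl
      intro b _
      congr 2
      simp only [R]
      ring
    rw [h4]
    simp only [cc, ν]
    by_cases hmS : m ∈ S
    · simp only [hmS, if_true]
      norm_num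
    · simp [hmS]
  · intro k T hk
    have hp : p.Prime := Fact.out
    have hp0 : (0 : ℝ) < p := Nat.cast_pos.mpr hp.pos
    have h1 := fac_bound_cls (p := p) (l := l) R ν
      (fun j => by
        simp only [ν]
        rw [Complex.norm_intCast]
        exact_mod_cast ArithmeticFunction.abs_moebius_le_one (n := j.natAbs)) k
      (2 * |(k : ℝ)| * (p : ℝ) ^ l) (fun T => gauss_cls hl1 k hk T) S T
    rw [hsumw, norm_mul, norm_inv, Complex.norm_natCast]
    have h4 : (0 : ℝ) < (p : ℝ) ^ l := pow_pos hp0 l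
    have h5 : (((cls p l).card : ℝ))⁻¹ ≤ p / ((p : ℝ) ^ l * (p : ℝ) ^ l) := by
      rw [inv_le_comm₀ hcard (by positivity), inv_div]
      have e1 : (p : ℝ) ^ l * (p : ℝ) ^ l = (p : ℝ) ^ (2 * l - 1) * p := by
        rw [← pow_add, ← pow_succ]
        congr 1
        omega
      rw [e1, mul_div_assoc, div_self hp0.ne', mul_one]
      exact_mod_cast hclsge
    calc (((cls p l).card : ℝ))⁻¹ * ‖∑ b ∈ cls p l,
          (∏ j ∈ S, fac (p ^ (2 * l)) R ν (b : ZMod (p ^ (2 * l))) j) *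
            ee (p ^ (2 * l)) (k * (b : ZMod (p ^ (2 * l))) ^ 2 + T * b)‖
        ≤ p / ((p : ℝ) ^ l * (p : ℝ) ^ l) * (2 ^ S.card * (2 * |(k : ℝ)| * (p : ℝ) ^ l)) :=
          mul_le_mul h5 h1 (norm_nonneg _) (by positivity)
      _ = 2 ^ S.card * (2 * |(k : ℝ)| * p) / (p : ℝ) ^ l := by
          field_simp

end Pool.Agent.Q275.ME
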