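import Pool.Agent.Q275.ME.Weyl
import Pool.Agent.Q275.ME.RieszC

/-!
# Localised Riesz products

Weights `w` on the units `b ≡ 1 (mod p)` modulo `p ^ (2l)` such that `b² / p ^ (2l)` lies in a given arc and
the correlations with `e(2 b r_g / p ^ (2l))` are prescribed up to a small error.
-/

set_option autoImplicit false

open Filter Topology Finset

namespace Pool.Agent.Q275.ME

open Pool.Agent.Y821.ME

open Classical in
/-- the prescribed correlations -/
noncomputable def tar (S : Finset ℤ) (g : ℤ) : ℝ :=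
  if g ∈ S then ((ArithmeticFunction.moebius g.natAbs : ℤ) : ℝ) / 2 else 0

theorem abs_tar_le (S : Finset ℤ) (g : ℤ) : |tar S g| ≤ 1 / 2 := by
  unfold tar
  split_ifs
  · rw [abs_div, abs_two]
    have h2 : |((ArithmeticFunction.moebius g.natAbs : ℤ) : ℝ)| ≤ 1 := by
      exact_mod_cast ArithmeticFunction.abs_moebius_le_one (n := g.natAbs)
    linarith
  · norm_num

section

variable {p l : ℕ} [Fact p.Prime]

/-- the point `b² / p ^ (2l)` of the circle -/
noncomputable def pt (b : (ZMod (p ^ (2 * l)))ˣ) : UnitAddCircle :=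
  ZMod.toAddCircle ((b : ZMod (p ^ (2 * l))) ^ 2)

/-- the functional `φ ↦ ∑_b c(b) φ(b² / q)` -/
noncomputable def fn (c : (ZMod (p ^ (2 * l)))ˣ → ℂ) (s : UnitAddCircle) : C(UnitAddCircle, ℂ) →ₗ[ℂ] ℂ where
  toFun φ := ∑ b, c b * φ (pt b - s)
  map_add' φ ψ := by
    rw [← sum_add_distrib]
    refine sum_congr rfl fun b _ => ?_
    rw [ContinuousMap.add_apply]
    ring
  map_smul' a φ := by
    rw [RingHom.id_apply, smul_eq_mul, mul_sum (s := (univ : Finset (ZMod (p ^ (2 * l)))ˣ))]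
    refine sum_congr rfl fun b _ => ?_
    rw [ContinuousMap.smul_apply, smul_eq_mul]
    ring

theorem fn_bound (c : (ZMod (p ^ (2 * l)))ˣ → ℂ) (s : UnitAddCircle) (φ : C(UnitAddCircle, ℂ)) :
    ‖fn c s φ‖ ≤ (∑ b, ‖c b‖) * ‖φ‖ := by
  show ‖∑ b, c b * φ (pt b - s)‖ ≤ _
  rw [sum_mul]
  refine (norm_sum_le _ _).trans (sum_le_sum fun b _ => ?_)
  rw [norm_mul]
  exact mul_le_mul_of_nonneg_left (φ.norm_coe_le_norm _) (norm_nonneg _)

theorem fn_fourier (c : (ZMod (p ^ (2 * l)))ˣ → ℂ) (s : UnitAddCircle) (k : ℤ) :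
    fn c s (fourier k) = fourier k (-s) *
      ∑ b : (ZMod (p ^ (2 * l)))ˣ, c b * ee (p ^ (2 * l)) (k * (b : ZMod (p ^ (2 * l))) ^ 2) := by
  show ∑ b, c b * fourier k (pt b - s) = _
  rw [mul_sum (s := (univ : Finset (ZMod (p ^ (2 * l)))ˣ))]
  refine sum_congr rfl fun b _ => ?_
  have h1 : (fourier k (pt b - s) : ℂ) = fourier k (pt b) * fourier k (-s) := by
    rw [sub_eq_add_neg]
    simp only [fourier_apply, smul_add, AddCircle.toCircle_add, Circle.coe_mul]
  rw [h1]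
  unfold pt
  rw [fourier_ee]
  ring

end

/-- `K / p ^ (l₀ + m) → 0` -/
theorem tendsto_div_pow (p : ℕ) (hp : 2 ≤ p) (K : ℝ) (l₀ : ℕ) :
    Tendsto (fun m : ℕ => K / (p : ℝ) ^ (l₀ + m)) atTop (𝓝 0) := by
  have h1 : Tendsto (fun n : ℕ => (p : ℝ) ^ n) atTop atTop :=
    tendsto_pow_atTop_atTop_of_one_lt (by exact_mod_cast (show 1 < p by omega))
  have h2 : Tendsto (fun m : ℕ => (p : ℝ) ^ (l₀ + m)) atTop atTop :=
    h1.comp (tendsto_add_atTop_nat l₀ |>.congr fun m => by rw [add_comm])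
  exact h2.const_div_atTop K

theorem rz6 (hli : S_LI2) (Y p : ℕ) [Fact p.Prime] (hp2 : p ≠ 2) (S : Finset ℤ) (hS : S ⊆ Gs Y p)
    (θ₀ : UnitAddCircle) (ρ ε : ℝ) (hρ : 0 < ρ) (hε : 0 < ε) :
    ∃ l₀ : ℕ, 1 ≤ l₀ ∧ ∀ l : ℕ, l₀ ≤ l → ∃ r : ℤ → (ZMod (p ^ (2 * l)))ˣ,
    (∀ g ∈ Gs Y p, (g : ZMod (p ^ (2 * l))) * (r g : ZMod (p ^ (2 * l))) ^ 2 = 1) ∧
    ∃ w : (ZMod (p ^ (2 * l)))ˣ → ℝ, (∀ b, 0 ≤ w b) ∧ ∑ b, w b = 1 ∧
      (∀ b, w b ≠ 0 → b ∈ cls p l ∧ ‖pt b - θ₀‖ < ρ) ∧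
      ∀ g ∈ Gs Y p, ‖∑ b, (w b : ℂ) * ee (p ^ (2 * l)) (2 * (b : ZMod (p ^ (2 * l))) * r g) - tar S g‖ ≤ ε := by
  classical
  have hp : p.Prime := Fact.out
  obtain ⟨l₀, hl₀, hall⟩ := rz5 hli Y p hp2 S hS
  have hall' : ∀ m : ℕ, _ := fun m => hall (l₀ + m) (Nat.le_add_right _ _)
  choose r hr w hw0 hw1 hwcls hwt hwk using hall'
  -- the functionals
  have hwC : ∀ m, ∑ b, ‖(w m b : ℂ)‖ = 1 := by
    intro m
    rw [← hw1 m]
    refine sum_congr rfl fun b _ => ?_
    rw [Complex.norm_real, Real.norm_of_nonneg (hw0 m b)]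
  have hwC1 : ∀ m, ∑ b, (w m b : ℂ) = 1 := by
    intro m
    have := hw1 m
    exact_mod_cast this
  -- translates
  have hshift : ∀ (s : UnitAddCircle) (φ : C(UnitAddCircle, ℂ)),
      Tendsto (fun m => fn (fun b => (w m b : ℂ)) 0 φ - fn (fun b => (w m b : ℂ)) s φ) atTop (𝓝 0) := by
    intro s φ
    refine weyl (fun m => fn (fun b => (w m b : ℂ)) 0 - fn (fun b => (w m b : ℂ)) s) 2 (by norm_num)
      (fun m φ => ?_) (fun k => ?_) φ
    · rw [LinearMap.sub_apply]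
      refine (norm_sub_le _ _).trans ?_
      have h1 := fn_bound (fun b => (w m b : ℂ)) 0 φ
      have h2 := fn_bound (fun b => (w m b : ℂ)) s φ
      rw [hwC m] at h1 h2
      linarith
    · rcases eq_or_ne k 0 with hk | hk
      · have h1 : ∀ m, (fn (fun b => (w m b : ℂ)) 0 - fn (fun b => (w m b : ℂ)) s) (fourier k) = 0 := by
          intro m
          rw [LinearMap.sub_apply, fn_fourier, fn_fourier, hk]
          simp
        simp only [h1]
        exact tendsto_const_nhds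
      · rw [tendsto_zero_iff_norm_tendsto_zero]
        refine squeeze_zero (fun m => norm_nonneg _) (fun m => ?_)
          (tendsto_div_pow p hp.two_le (2 * (2 ^ S.card * (2 * |(k : ℝ)| * p))) l₀)
        rw [LinearMap.sub_apply, fn_fourier, fn_fourier, ← sub_mul, norm_mul]
        have h1 : ‖(fourier k (-(0 : UnitAddCircle)) : ℂ) - fourier k (-s)‖ ≤ 2 := by
          refine (norm_sub_le _ _).trans ?_
          have e1 := (fourier k : C(UnitAddCircle, ℂ)).norm_coe_le_norm (-(0 : UnitAddCircle))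
          have e2 := (fourier k : C(UnitAddCircle, ℂ)).norm_coe_le_norm (-s)
          rw [fourier_norm] at e1 e2
          linarith
        have h2 := hwk m k 0 hk
        simp only [zero_mul, add_zero] at h2
        calc _ ≤ 2 * (2 ^ S.card * (2 * |(k : ℝ)| * p) / (p : ℝ) ^ (l₀ + m)) :=
              mul_le_mul h1 h2 (norm_nonneg _) (by norm_num)
          _ = _ := by ring
  -- correlations
  have hcor : ∀ g ∈ Gs Y p, ∀ φ : C(UnitAddCircle, ℂ),
      Tendsto (fun m => fn (fun b => (w m b : ℂ) *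
        (ee (p ^ (2 * (l₀ + m))) (2 * (b : ZMod (p ^ (2 * (l₀ + m)))) * r m g) - (tar S g : ℂ))) 0 φ)
        atTop (𝓝 0) := by
    intro g hg φ
    refine weyl (fun m => fn (fun b => (w m b : ℂ) *
        (ee (p ^ (2 * (l₀ + m))) (2 * (b : ZMod (p ^ (2 * (l₀ + m)))) * r m g) - (tar S g : ℂ))) 0)
        2 (by norm_num) (fun m φ => ?_) (fun k => ?_) φ
    · refine (fn_bound _ _ _).trans (mul_le_mul_of_nonneg_right ?_ (norm_nonneg _))
      calc _ ≤ ∑ b, w m b * 2 := by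
            refine sum_le_sum fun b _ => ?_
            rw [norm_mul, Complex.norm_real, Real.norm_of_nonneg (hw0 m b)]
            refine mul_le_mul_of_nonneg_left ?_ (hw0 m b)
            refine (norm_sub_le _ _).trans ?_
            have e1 : ‖ee (p ^ (2 * (l₀ + m))) (2 * (b : ZMod (p ^ (2 * (l₀ + m)))) * r m g)‖ = 1 := norm_ee' _
            have e2 := abs_tar_le S g
            rw [e1, Complex.norm_real, Real.norm_eq_abs]
            linarith
        _ = 2 := by rw [← sum_mul, hw1 m, one_mul]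
    · -- the sums
      have hval : ∀ m, fn (fun b => (w m b : ℂ) *
          (ee (p ^ (2 * (l₀ + m))) (2 * (b : ZMod (p ^ (2 * (l₀ + m)))) * r m g) - (tar S g : ℂ))) 0
            (fourier k) =
          ∑ b, (w m b : ℂ) * ee (p ^ (2 * (l₀ + m))) (k * (b : ZMod (p ^ (2 * (l₀ + m)))) ^ 2 +
              (2 * r m g) * b) -
          tar S g * ∑ b, (w m b : ℂ) * ee (p ^ (2 * (l₀ + m))) (k * (b : ZMod (p ^ (2 * (l₀ + m)))) ^ 2 +
              0 * b) := by
        intro m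
        rw [fn_fourier, neg_zero, fourier_eval_zero, one_mul,
          mul_sum (s := (univ : Finset (ZMod (p ^ (2 * (l₀ + m))))ˣ)), ← sum_sub_distrib]
        refine sum_congr rfl fun b _ => ?_
        rw [ee_add', ee_add', zero_mul]
        have e1 : (2 * (r m g : ZMod (p ^ (2 * (l₀ + m))))) * b = 2 * b * r m g := by ring
        have e3 : ee (p ^ (2 * (l₀ + m))) 0 = 1 := by simp [ee]
        rw [e1, e3]
        ring
      rcases eq_or_ne k 0 with hk | hk
      · have h1 : ∀ m, fn (fun b => (w m b : ℂ) *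
          (ee (p ^ (2 * (l₀ + m))) (2 * (b : ZMod (p ^ (2 * (l₀ + m)))) * r m g) - (tar S g : ℂ))) 0
            (fourier k) = 0 := by
          intro m
          rw [fn_fourier, hk, neg_zero, fourier_eval_zero, one_mul]
          have e1 : ∀ b : (ZMod (p ^ (2 * (l₀ + m))))ˣ,
              ee (p ^ (2 * (l₀ + m))) (((0 : ℤ) : ZMod (p ^ (2 * (l₀ + m)))) * (b : ZMod (p ^ (2 * (l₀ + m)))) ^ 2) =
                1 := by
            intro b
            simp [ee]
          simp only [e1, mul_one]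
          have e2 := hwt m g hg
          simp only [mul_sub]
          rw [sum_sub_distrib, e2, ← sum_mul, hwC1 m, one_mul]
          unfold tar
          split_ifs <;> push_cast <;> ring
        simp only [h1]
        exact tendsto_const_nhds
      · rw [tendsto_zero_iff_norm_tendsto_zero]
        refine squeeze_zero (fun m => norm_nonneg _) (fun m => ?_)
          (tendsto_div_pow p hp.two_le (2 * (2 ^ S.card * (2 * |(k : ℝ)| * p))) l₀)
        rw [hval m]
        have h1 := hwk m k (2 * r m g) hk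
        have h3 := hwk m k 0 hk
        set A1 := ∑ b, (w m b : ℂ) * ee (p ^ (2 * (l₀ + m))) (k * (b : ZMod (p ^ (2 * (l₀ + m)))) ^ 2 +
              (2 * r m g) * b)
        set A3 := ∑ b, (w m b : ℂ) * ee (p ^ (2 * (l₀ + m))) (k * (b : ZMod (p ^ (2 * (l₀ + m)))) ^ 2 +
              0 * b)
        set E := 2 ^ S.card * (2 * |(k : ℝ)| * p) / (p : ℝ) ^ (l₀ + m) with hE
        have h5 : ‖(tar S g : ℂ) * A3‖ ≤ 1 / 2 * E := by
          rw [norm_mul, Complex.norm_real]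
          exact mul_le_mul (abs_tar_le S g) h3 (norm_nonneg _) (by norm_num)
        have h6 : 0 ≤ E := (norm_nonneg _).trans h3
        refine (norm_sub_le _ _).trans ?_
        have h7 : 2 * (2 ^ S.card * (2 * |(k : ℝ)| * p)) / (p : ℝ) ^ (l₀ + m) = 2 * E := by
          rw [hE]; ring
        rw [h7]
        linarith
  -- the mass of the arc
  obtain ⟨M, hM⟩ := exists_nat_gt (2 / ρ)
  have hM0 : 0 < M := by
    rcases Nat.eq_zero_or_pos M with h | h
    · rw [h, Nat.cast_zero] at hM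
      have : 0 < 2 / ρ := by positivity
      linarith
    · exact h
  have hMR : (0 : ℝ) < M := Nat.cast_pos.mpr hM0
  have hMρ : 1 / (M : ℝ) ≤ ρ / 2 := by
    rw [div_le_iff₀ hMR]
    rw [div_lt_iff₀ hρ] at hM
    linarith
  set z₀ : ℝ := ρ / (4 * M) with hz₀
  have hz₀' : 0 < z₀ := by positivity
  have hmass : ∀ᶠ m : ℕ in atTop, z₀ ≤ ∑ b, w m b * bump θ₀ ρ (pt b) := by
    have h1 : ∀ᶠ m : ℕ in atTop, ∀ j ∈ range M,
        ‖fn (fun b => (w m b : ℂ)) 0 (bumpC θ₀ ρ) -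
          fn (fun b => (w m b : ℂ)) ((j / M : ℝ) : UnitAddCircle) (bumpC θ₀ ρ)‖ < z₀ := by
      rw [eventually_all_finset]
      intro j _
      have := (hshift ((j / M : ℝ) : UnitAddCircle) (bumpC θ₀ ρ)).norm
      rw [norm_zero] at this
      exact this.eventually (gt_mem_nhds hz₀')
    filter_upwards [h1] with m hm
    set Z : ℝ := ∑ b, w m b * bump θ₀ ρ (pt b) with hZ
    have h2 : ∀ s : UnitAddCircle, fn (fun b => (w m b : ℂ)) s (bumpC θ₀ ρ) =
        ((∑ b, w m b * bump θ₀ ρ (pt b - s) : ℝ) : ℂ) := by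
      intro s
      show ∑ b, (w m b : ℂ) * (bump θ₀ ρ (pt b - s) : ℂ) = _
      push_cast
      rfl
    have h3 : ∀ j ∈ range M, ∑ b, w m b * bump θ₀ ρ (pt b - ((j / M : ℝ) : UnitAddCircle)) ≤ Z + z₀ := by
      intro j hj
      have e1 := hm j hj
      rw [h2, h2, ← Complex.ofReal_sub, Complex.norm_real, Real.norm_eq_abs, abs_lt] at e1
      simp only [sub_zero] at e1
      linarith [e1.1]
    have h4 : ρ / 2 ≤ ∑ j ∈ range M, ∑ b, w m b * bump θ₀ ρ (pt b - ((j / M : ℝ) : UnitAddCircle)) := by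
      rw [sum_comm]
      calc ρ / 2 = ∑ b, w m b * (ρ / 2) := by rw [← sum_mul, hw1 m, one_mul]
        _ ≤ ∑ b, ∑ j ∈ range M, w m b * bump θ₀ ρ (pt b - ((j / M : ℝ) : UnitAddCircle)) := by
            refine sum_le_sum fun b _ => ?_
            rw [← mul_sum]
            exact mul_le_mul_of_nonneg_left (bump_cover θ₀ ρ M hM0 hMρ (pt b)) (hw0 m b)
    have h5 := sum_le_sum h3
    rw [sum_const, card_range, nsmul_eq_mul] at h5
    have h6 : ρ / 2 ≤ M * (Z + z₀) := h4.trans h5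
    have h7 : (M : ℝ) * z₀ = ρ / 4 := by
      rw [hz₀]; field_simp
    have h8 : (M : ℝ) * z₀ ≤ M * Z := by
      rw [mul_add, h7] at h6
      rw [h7]
      linarith
    exact le_of_mul_le_mul_left h8 hMR
  -- the correlations with the bump function
  have hcor2 : ∀ᶠ m : ℕ in atTop, ∀ g ∈ Gs Y p,
      ‖fn (fun b => (w m b : ℂ) *
        (ee (p ^ (2 * (l₀ + m))) (2 * (b : ZMod (p ^ (2 * (l₀ + m)))) * r m g) - (tar S g : ℂ))) 0
          (bumpC θ₀ ρ)‖ < ε * z₀ := by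
    rw [eventually_all_finset]
    intro g hg
    have := (hcor g hg (bumpC θ₀ ρ)).norm
    rw [norm_zero] at this
    exact this.eventually (gt_mem_nhds (by positivity))
  obtain ⟨m₀, hm₀⟩ := eventually_atTop.mp (hmass.and hcor2)
  refine ⟨l₀ + m₀, by omega, fun l hl => ?_⟩
  obtain ⟨m, rfl⟩ := Nat.exists_eq_add_of_le (show l₀ ≤ l by omega)
  obtain ⟨hZ, hC⟩ := hm₀ m (by omega)
  refine ⟨r m, hr m, ?_⟩
  set Z : ℝ := ∑ b, w m b * bump θ₀ ρ (pt b) with hZdef
  have hZ0 : 0 < Z := lt_of_lt_of_le hz₀' hZ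
  have hZC : (Z : ℂ) ≠ 0 := by exact_mod_cast hZ0.ne'
  refine ⟨fun b => w m b * bump θ₀ ρ (pt b) / Z, fun b => ?_, ?_, fun b hb => ⟨?_, ?_⟩, fun g hg => ?_⟩
  · exact div_nonneg (mul_nonneg (hw0 m b) (bump_nonneg _ _ _)) hZ0.le
  · rw [← sum_div, ← hZdef, div_self hZ0.ne']
  · refine hwcls m b fun h0 => hb ?_
    show w m b * bump θ₀ ρ (pt b) / Z = 0
    rw [h0, zero_mul, zero_div]
  · refine bump_support θ₀ ρ _ fun h0 => hb ?_
    show w m b * bump θ₀ ρ (pt b) / Z = 0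
    rw [h0, mul_zero, zero_div]
  · have h1 := hC g hg
    have h2 : fn (fun b => (w m b : ℂ) *
        (ee (p ^ (2 * (l₀ + m))) (2 * (b : ZMod (p ^ (2 * (l₀ + m)))) * r m g) - (tar S g : ℂ))) 0
          (bumpC θ₀ ρ) = ∑ b, (w m b : ℂ) * (ee (p ^ (2 * (l₀ + m))) (2 * (b : ZMod (p ^ (2 * (l₀ + m)))) *
            r m g) - (tar S g : ℂ)) * (bump θ₀ ρ (pt b) : ℂ) := by
      show ∑ b, ((w m b : ℂ) * _) * (bump θ₀ ρ (pt b - 0) : ℂ) = _
      refine sum_congr rfl fun b _ => ?_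
      rw [sub_zero]
    rw [h2] at h1
    have h3 : ∑ b, ((w m b * bump θ₀ ρ (pt b) / Z : ℝ) : ℂ) *
        ee (p ^ (2 * (l₀ + m))) (2 * (b : ZMod (p ^ (2 * (l₀ + m)))) * r m g) - (tar S g : ℂ) =
        (∑ b, (w m b : ℂ) * (ee (p ^ (2 * (l₀ + m))) (2 * (b : ZMod (p ^ (2 * (l₀ + m)))) *
            r m g) - (tar S g : ℂ)) * (bump θ₀ ρ (pt b) : ℂ)) / (Z : ℂ) := by
      rw [eq_div_iff hZC, sub_mul, sum_mul]
      have e1 : (tar S g : ℂ) * (Z : ℂ) = ∑ b, (w m b : ℂ) * (bump θ₀ ρ (pt b) : ℂ) * (tar S g : ℂ) := by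
        rw [hZdef, mul_comm, Complex.ofReal_sum, sum_mul]
        refine sum_congr rfl fun b _ => ?_
        rw [Complex.ofReal_mul]
      rw [e1, ← sum_sub_distrib]
      refine sum_congr rfl fun b _ => ?_
      push_cast
      field_simp
    rw [h3, norm_div, Complex.norm_real, Real.norm_of_nonneg hZ0.le, div_le_iff₀ hZ0]
    have h4 : ε * z₀ ≤ ε * Z := mul_le_mul_of_nonneg_left hZ hε.le
    linarith

end Pool.Agent.Q275.ME
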