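import Pool.Agent.Q275.ME.PeriodC

/-!
# The main theorem: uniform square root bounds on an interval longer than `1 / p` contradict pointwise square
root bounds at the fractions `a / p ^ (2l)`, for every large `l`

After `Pool.Agent.Y821.ME.FinE` and `Fin2E` (helper821), with localised Riesz products and differences.
-/

set_option autoImplicit false

open Filter Topology MeasureTheory Finset

namespace Pool.Agent.Q275.ME

open Pool.Agent.Y821.ME Pool.Agent.Y821.ME.Two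

/-- the contribution of small perturbations of the coefficients -/
theorem perturb (hvb : S_VB) (N : ℕ) (hN : 1 ≤ N) (T T' : ℕ → ℂ) (hT : ∀ n, ‖T n‖ ≤ 2) (hT' : ∀ n, ‖T' n‖ ≤ 2)
    (δ : ℝ) (hδ : 0 ≤ δ) (hd : ∀ m : ℕ, 1 ≤ m → m ≤ 100 * N ^ 2 → ‖mu m * T m - mu m * T' m‖ ≤ δ)
    (he : ∀ m : ℕ, 100 * N ^ 2 < m → T m = T' m) :
    ‖∑' n : ℕ, mu (n + 1) * T (n + 1) * (VL ((n + 1 : ℕ) * (1 / (10 * N : ℝ))) : ℝ) -
      ∑' n : ℕ, mu (n + 1) * T' (n + 1) * (VL ((n + 1 : ℕ) * (1 / (10 * N : ℝ))) : ℝ)‖ ≤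
      (100 * N ^ 2 : ℕ) * (δ * (3 * (10 * N : ℝ) ^ 3)) := by
  have hN' : (1 : ℝ) ≤ N := by exact_mod_cast hN
  set Z : ℝ := 10 * N with hZ
  have hZ0 : 10 ≤ Z := by rw [hZ]; linarith
  have hbound : ∀ T : ℕ → ℂ, (∀ n, ‖T n‖ ≤ 2) → ∀ n : ℕ,
      ‖mu (n + 1) * T (n + 1) * ((VL ((n + 1 : ℕ) * (1 / Z)) : ℝ) : ℂ)‖ ≤ 6 * Z ^ 3 * (1 / ((n : ℝ) + 1) ^ 3) := by
    intro T hT n
    have h1 := (hvb.1 (((n + 1 : ℕ) : ℝ) * (1 / Z)) (by positivity)).2
    rw [norm_mul, norm_mul, Complex.norm_real, Real.norm_eq_abs]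
    calc ‖mu (n + 1)‖ * ‖T (n + 1)‖ * |VL (((n + 1 : ℕ) : ℝ) * (1 / Z))|
        ≤ 1 * 2 * (3 / (((n + 1 : ℕ) : ℝ) * (1 / Z)) ^ 3) := by
          gcongr
          · exact norm_mu_le _
          · exact hT _
      _ = _ := by
          push_cast
          field_simp
          ring
  have hs := Summable.of_norm_bounded (cube_summable0.mul_left (6 * Z ^ 3)) (hbound T hT)
  have hs' := Summable.of_norm_bounded (cube_summable0.mul_left (6 * Z ^ 3)) (hbound T' hT')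
  rw [← hs.tsum_sub hs']
  have h0 : ∀ n ∉ range (100 * N ^ 2), mu (n + 1) * T (n + 1) * ((VL ((n + 1 : ℕ) * (1 / Z)) : ℝ) : ℂ) -
      mu (n + 1) * T' (n + 1) * ((VL ((n + 1 : ℕ) * (1 / Z)) : ℝ) : ℂ) = 0 := by
    intro n hn
    rw [mem_range, not_lt] at hn
    rw [he (n + 1) (by omega), sub_self]
  rw [tsum_eq_sum h0]
  refine (norm_sum_le _ _).trans ?_
  calc _ ≤ ∑ _n ∈ range (100 * N ^ 2), δ * (3 * Z ^ 3) := by
        refine sum_le_sum fun n hn => ?_
        rw [mem_range] at hn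
        rw [← sub_mul, norm_mul, Complex.norm_real, Real.norm_eq_abs]
        refine mul_le_mul (hd (n + 1) (by omega) (by omega)) ?_ (abs_nonneg _) hδ
        have h1 := (hvb.1 (((n + 1 : ℕ) : ℝ) * (1 / Z)) (by positivity)).2
        refine h1.trans ?_
        rw [div_le_iff₀ (by positivity)]
        have h2 : 1 / Z ≤ ((n + 1 : ℕ) : ℝ) * (1 / Z) := by
          have e1 : (1 : ℝ) ≤ ((n + 1 : ℕ) : ℝ) := by exact_mod_cast (show 1 ≤ n + 1 by omega)
          have e2 : 0 < 1 / Z := by positivity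
          nlinarith
        have h3 : (1 / Z) ^ 3 ≤ (((n + 1 : ℕ) : ℝ) * (1 / Z)) ^ 3 := pow_le_pow_left₀ (by positivity) h2 3
        have h4 : Z ^ 3 * (1 / Z) ^ 3 = 1 := by field_simp
        have h5 : (0 : ℝ) < Z ^ 3 := by positivity
        nlinarith
    _ = _ := by rw [sum_const, card_range, nsmul_eq_mul]

/-- the lower bound for the series on the left -/
theorem left_lower_gen (c : ℝ) (hc : 0 ≤ c) (hvb : S_VB) (N : ℕ) (hN : 1 ≤ N) (S : Finset ℕ)
    (hS : ∀ m ∈ S, 2 * N ≤ m ∧ m ≤ 3 * N) (TL : ℕ → ℂ) (hTL : ∀ n, ‖TL n‖ ≤ 2)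
    (hsmall : ∀ m : ℕ, 1 ≤ m → m ≤ 100 * N ^ 2 → mu m * TL m = if m ∈ S then (c : ℂ) else 0) :
    (S.card : ℝ) * (2 * c / 5) - 1 ≤
      ‖∑' n : ℕ, mu (n + 1) * TL (n + 1) * (VL ((n + 1 : ℕ) * (1 / (10 * N : ℝ))) : ℝ)‖ := by
  classical
  have hN' : (1 : ℝ) ≤ N := by exact_mod_cast hN
  set Z : ℝ := 10 * N with hZ
  have hZ0 : 10 ≤ Z := by rw [hZ]; linarith
  set Y : ℕ := 100 * N ^ 2 with hY
  have hYZ : (Y : ℝ) = Z ^ 2 := by rw [hY, hZ]; push_cast; ring
  have hY1 : 1 ≤ Y := by rw [hY]; nlinarith [Nat.one_le_pow 2 N hN]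
  set g : ℕ → ℂ := fun n => mu (n + 1) * TL (n + 1) * (VL ((n + 1 : ℕ) * (1 / Z)) : ℝ) with hg
  have hbound : ∀ n : ℕ, ‖g n‖ ≤ 6 * Z ^ 3 * (1 / ((n : ℝ) + 1) ^ 3) := by
    intro n
    have hn : (0 : ℝ) < (n : ℝ) + 1 := by positivity
    have h1 := (hvb.1 (((n + 1 : ℕ) : ℝ) * (1 / Z)) (by positivity)).2
    rw [hg]
    simp only
    rw [norm_mul, norm_mul, Complex.norm_real, Real.norm_eq_abs]
    calc ‖mu (n + 1)‖ * ‖TL (n + 1)‖ * |VL (((n + 1 : ℕ) : ℝ) * (1 / Z))|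
        ≤ 1 * 2 * (3 / (((n + 1 : ℕ) : ℝ) * (1 / Z)) ^ 3) := by
          gcongr
          · exact norm_mu_le _
          · exact hTL _
      _ = _ := by
          push_cast
          field_simp
          ring
  have hsum : Summable g := Summable.of_norm_bounded (cube_summable0.mul_left _) hbound
  have hsplit := hsum.sum_add_tsum_nat_add Y
  have htail : ‖∑' n : ℕ, g (n + Y)‖ ≤ 1 := by
    have h1 : ∀ n : ℕ, ‖g (n + Y)‖ ≤ 6 * Z ^ 3 * (1 / ((n : ℝ) + Y + 1) ^ 3) := by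
      intro n
      have := hbound (n + Y)
      push_cast at this
      exact this
    have h2 : ‖∑' n : ℕ, g (n + Y)‖ ≤ ∑' n : ℕ, 6 * Z ^ 3 * (1 / ((n : ℝ) + Y + 1) ^ 3) :=
      tsum_of_norm_bounded ((cube_summable Y hY1).mul_left _).hasSum h1
    refine h2.trans ?_
    rw [tsum_mul_left]
    have h3 := cube_tsum Y hY1
    calc 6 * Z ^ 3 * ∑' n : ℕ, 1 / ((n : ℝ) + Y + 1) ^ 3 ≤ 6 * Z ^ 3 * (1 / (Y : ℝ) ^ 2) := by
          gcongr
      _ = 6 / Z := by rw [hYZ]; field_simp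
      _ ≤ 1 := by rw [div_le_one (by linarith)]; linarith
  have hhead : ∑ n ∈ range Y, g n = ((∑ m ∈ S, c * VL ((m : ℕ) * (1 / Z)) : ℝ) : ℂ) := by
    have hSY : S ⊆ Icc 1 Y := by
      intro m hm
      obtain ⟨h1, h2⟩ := hS m hm
      rw [Finset.mem_Icc]
      constructor
      · omega
      · rw [hY]; nlinarith
    have h1 : ∑ n ∈ range Y, g n = ∑ m ∈ Icc 1 Y, mu m * TL m * (VL ((m : ℕ) * (1 / Z)) : ℝ) := by
      rw [← Finset.sum_image (f := fun m : ℕ => mu m * TL m * (VL ((m : ℕ) * (1 / Z)) : ℝ))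
        (g := fun n : ℕ => n + 1) (s := range Y)]
      · congr 1
        ext m
        simp only [Finset.mem_image, Finset.mem_range, Finset.mem_Icc]
        constructor
        · rintro ⟨a, ha, rfl⟩; omega
        · rintro ⟨h2, h3⟩; exact ⟨m - 1, by omega, by omega⟩
      · intro a _ b _ hab
        simpa using hab
    rw [h1, ← Finset.sum_subset hSY]
    · push_cast
      refine Finset.sum_congr rfl fun m hm => ?_
      obtain ⟨h2, h3⟩ := Finset.mem_Icc.mp (hSY hm)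
      rw [hsmall m h2 h3, if_pos hm]
    · intro m hm hmS
      obtain ⟨h2, h3⟩ := Finset.mem_Icc.mp hm
      rw [hsmall m h2 h3, if_neg hmS, zero_mul]
  have hlow : (S.card : ℝ) * (2 * c / 5) ≤ ∑ m ∈ S, c * VL ((m : ℕ) * (1 / Z)) := by
    have h1 : ∑ m ∈ S, (2 * c / 5 : ℝ) ≤ ∑ m ∈ S, c * VL ((m : ℕ) * (1 / Z)) := by
      refine Finset.sum_le_sum fun m hm => ?_
      obtain ⟨h2, h3⟩ := hS m hm
      have h2' : (2 : ℝ) * N ≤ m := by exact_mod_cast h2
      have h3' : (m : ℝ) ≤ 3 * N := by exact_mod_cast h3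
      have h4 := hvb.2 ((m : ℝ) * (1 / Z)) (by
        rw [mul_one_div, le_div_iff₀ (by linarith), hZ]; linarith) (by
        rw [mul_one_div, div_le_iff₀ (by linarith), hZ]; linarith)
      nlinarith
    rw [Finset.sum_const, nsmul_eq_mul] at h1
    linarith
  calc (S.card : ℝ) * (2 * c / 5) - 1 ≤ ‖∑ n ∈ range Y, g n‖ - ‖∑' n : ℕ, g (n + Y)‖ := by
        rw [hhead, Complex.norm_real, Real.norm_eq_abs]
        have := le_abs_self (∑ m ∈ S, c * VL ((m : ℕ) * (1 / Z)))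
        linarith
    _ ≤ ‖∑ n ∈ range Y, g n + ∑' n : ℕ, g (n + Y)‖ := by
        have := norm_sub_le (∑ n ∈ range Y, g n + ∑' n : ℕ, g (n + Y)) (∑' n : ℕ, g (n + Y))
        rw [add_sub_cancel_right] at this
        linarith
    _ = ‖∑' n : ℕ, g n‖ := by rw [hsplit]


section

variable {p l : ℕ} [Fact p.Prime]

/-- `Re e(r / p) = cos (2π / p)` if `r² ≡ 1 (mod p)` -/
theorem re_zeta (hl : 1 ≤ l) (r : (ZMod (p ^ (2 * l)))ˣ)
    (hr : (p : ZMod (p ^ (2 * l))) ^ (2 * l - 1) * (r : ZMod (p ^ (2 * l))) ^ 2 =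
      (p : ZMod (p ^ (2 * l))) ^ (2 * l - 1)) :
    (ee (p ^ (2 * l)) ((p : ZMod (p ^ (2 * l))) ^ (2 * l - 1) * r)).re = Real.cos (2 * Real.pi / p) := by
  have hp : p.Prime := Fact.out
  have hp0 : (p : ℝ) ≠ 0 := Nat.cast_ne_zero.mpr hp.ne_zero
  have hbase : ee (p ^ (2 * l)) ((p : ZMod (p ^ (2 * l))) ^ (2 * l - 1)) =
      Complex.exp (((2 * Real.pi / p : ℝ) : ℂ) * Complex.I) := by
    have h1 := ZMod.stdAddChar_coe (N := p ^ (2 * l)) ((p ^ (2 * l - 1) : ℕ) : ℤ)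
    have h2 : ((((p ^ (2 * l - 1) : ℕ) : ℤ)) : ZMod (p ^ (2 * l))) = (p : ZMod (p ^ (2 * l))) ^ (2 * l - 1) := by
      push_cast
      rfl
    rw [h2] at h1
    unfold ee
    rw [h1]
    congr 1
    have h3 : ((p ^ (2 * l) : ℕ) : ℂ) = (p : ℂ) ^ (2 * l - 1) * p := by
      rw [← pow_succ]
      push_cast
      congr 1
      omega
    have h4 : (p : ℂ) ≠ 0 := Nat.cast_ne_zero.mpr hp.ne_zero
    rw [h3]
    push_cast
    field_simp
  have hre : (ee (p ^ (2 * l)) ((p : ZMod (p ^ (2 * l))) ^ (2 * l - 1))).re = Real.cos (2 * Real.pi / p) := by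
    rw [hbase, Complex.exp_ofReal_mul_I_re]
  -- `r ≡ ± 1`
  set n : ℤ := ((r : ZMod (p ^ (2 * l))).val : ℤ) with hn
  have hrn : (r : ZMod (p ^ (2 * l))) = (n : ZMod (p ^ (2 * l))) := by
    rw [hn]
    simp
  have hpow : ((p : ℤ) ^ (2 * l)) = (p : ℤ) ^ (2 * l - 1) * p := by
    rw [← pow_succ]
    congr 1
    omega
  have hdvd : ∀ z : ℤ, (p : ZMod (p ^ (2 * l))) ^ (2 * l - 1) * (z : ZMod (p ^ (2 * l))) = 0 → (p : ℤ) ∣ z := by
    intro z hz
    have e1 : (((p : ℤ) ^ (2 * l - 1) * z : ℤ) : ZMod (p ^ (2 * l))) = 0 := by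
      push_cast
      exact hz
    rw [ZMod.intCast_zmod_eq_zero_iff_dvd] at e1
    push_cast at e1
    rw [hpow] at e1
    exact (mul_dvd_mul_iff_left (pow_ne_zero _ (by exact_mod_cast hp.ne_zero))).mp e1
  have hdvd' : ∀ z : ℤ, (p : ℤ) ∣ z → (p : ZMod (p ^ (2 * l))) ^ (2 * l - 1) * (z : ZMod (p ^ (2 * l))) = 0 := by
    rintro z ⟨y, rfl⟩
    push_cast
    rw [← mul_assoc, ← pow_succ, ppow_zero (by omega), zero_mul]
  have h5 : (p : ℤ) ∣ (n - 1) * (n + 1) := by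
    apply hdvd
    push_cast
    rw [← hrn]
    linear_combination hr
  have h6 : Prime (p : ℤ) := Nat.prime_iff_prime_int.mp hp
  rcases h6.dvd_or_dvd h5 with h7 | h7
  · have h8 := hdvd' _ h7
    push_cast at h8
    rw [← hrn] at h8
    have h9 : (p : ZMod (p ^ (2 * l))) ^ (2 * l - 1) * r = (p : ZMod (p ^ (2 * l))) ^ (2 * l - 1) := by
      linear_combination h8
    rw [h9, hre]
  · have h8 := hdvd' _ h7
    push_cast at h8
    rw [← hrn] at h8
    have h9 : (p : ZMod (p ^ (2 * l))) ^ (2 * l - 1) * r = -(p : ZMod (p ^ (2 * l))) ^ (2 * l - 1) := by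
      linear_combination h8
    have h10 : ee (p ^ (2 * l)) (-(p : ZMod (p ^ (2 * l))) ^ (2 * l - 1)) =
        (starRingEnd ℂ) (ee (p ^ (2 * l)) ((p : ZMod (p ^ (2 * l))) ^ (2 * l - 1))) := by
      simp only [ee]
      exact AddChar.map_neg_eq_conj _ _
    rw [h9, h10, Complex.conj_re, hre]

theorem kappa_pos (p : ℕ) (hp : 2 ≤ p) : 0 < 1 - Real.cos (2 * Real.pi / p) := by
  have hp' : (2 : ℝ) ≤ p := by exact_mod_cast hp
  have h1 : Real.cos (2 * Real.pi / p) < Real.cos 0 := by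
    refine Real.cos_lt_cos_of_nonneg_of_le_pi le_rfl ?_ (by positivity)
    rw [div_le_iff₀ (by linarith)]
    nlinarith [Real.pi_pos]
  rw [Real.cos_zero] at h1
  linarith

end

theorem main_four (htrig : S_TRIG) (hsup : S_SUP) (hlap : S_LAP) (hlim : S_LIM) (hvb : S_VB) (hser : S_SER)
    (hpair : S_PAIR) (hch : S_CH) (hkl : S_KL2) (hli : S_LI2) (hsf : S_SF2)
    (p : ℕ) (hp : p.Prime) (hp2 : p ≠ 2) (C θ₀ ρ : ℝ) (hρ : 0 < ρ) (hloc : LocD p C θ₀ ρ) :
    ∃ l₀ : ℕ, 1 ≤ l₀ ∧ ∀ l : ℕ, l₀ ≤ l → ∃ a : ℕ, ¬ p ∣ a ∧ ∀ B : ℝ, ∃ R : ℕ,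
      B * Real.sqrt R < ‖F R ((a / (p ^ (2 * l) : ℕ) : ℚ) : ℝ)‖ := by
  classical
  have hfact : Fact p.Prime := ⟨hp⟩
  set C' : ℝ := max C 0 with hC'
  have hC : 0 ≤ C' := le_max_right _ _
  have hpR : (1 : ℝ) ≤ p := by exact_mod_cast hp.one_lt.le
  set κ : ℝ := 1 - Real.cos (2 * Real.pi / p) with hκ
  have hκ0 : 0 < κ := kappa_pos p hp.two_le
  have hκ2 : κ ≤ 2 := by
    have := Real.neg_one_le_cos (2 * Real.pi / p)
    rw [hκ]
    linarith
  obtain ⟨N₀, hN₀⟩ := hsf p hp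
  obtain ⟨N, hN1, hN2, hN3⟩ := ((big_N2 ((5 * C' * Kth + 363) * (2 / κ)) p hp.one_lt.le).and
    ((eventually_ge_atTop 1).and (eventually_ge_atTop N₀))).exists
  set Sn : Finset ℕ := (Icc (2 * N) (3 * N)).filter (fun m => Squarefree m ∧ m % p = 1) with hSn
  have hcard : (N : ℝ) / (5 * p) ≤ Sn.card := by
    have := hN₀ N hN3
    rw [hSn]
    convert this
  have hN' : (1 : ℝ) ≤ N := by exact_mod_cast hN2
  have hNN : N ≤ N ^ 2 := by nlinarith
  set S : Finset ℤ := Sn.image (fun m : ℕ => (m : ℤ)) with hS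
  have hSmem : ∀ m : ℕ, ((m : ℤ) ∈ S ↔ m ∈ Sn) := by
    intro m
    rw [hS, Finset.mem_image]
    constructor
    · rintro ⟨k, hk, hk'⟩
      have : k = m := by exact_mod_cast hk'
      rwa [← this]
    · intro h
      exact ⟨m, h, rfl⟩
  have hSneg : ∀ m : ℕ, 1 ≤ m → -(m : ℤ) ∉ S := by
    intro m hm h
    rw [hS, Finset.mem_image] at h
    obtain ⟨k, -, hk⟩ := h
    omega
  have hSsub : S ⊆ Gs (100 * N ^ 2) p := by
    intro g hg
    rw [hS, Finset.mem_image] at hg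
    obtain ⟨m, hm, rfl⟩ := hg
    rw [hSn, Finset.mem_filter, Finset.mem_Icc] at hm
    obtain ⟨⟨h1, h2⟩, h3, h4⟩ := hm
    rw [mem_Gs]
    refine ⟨⟨by omega, ?_⟩, ?_, ?_, ?_⟩
    · have : m ≤ 100 * N ^ 2 := by omega
      exact_mod_cast this
    · exact Int.squarefree_natCast.mpr h3
    · intro hd
      have hd' : p ∣ m := by exact_mod_cast hd
      have := Nat.mod_eq_zero_of_dvd hd'
      omega
    · have h5 : ((m : ℤ) : ZMod p) = 1 := by
        have h6 : ((m : ℕ) : ZMod p) = ((1 : ℕ) : ZMod p) := by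
          rw [ZMod.natCast_eq_natCast_iff, Nat.ModEq, h4, Nat.mod_eq_of_lt hp.one_lt]
        push_cast
        push_cast at h6
        exact h6
      rw [h5]
      exact IsSquare.one
  have hN0R : (0 : ℝ) < N := by linarith
  set ε : ℝ := 1 / ((100 * N ^ 2 : ℕ) * (2 * (3 * (10 * N : ℝ) ^ 3))) with hεdef
  have hε : 0 < ε := by
    rw [hεdef]
    push_cast
    positivity
  obtain ⟨l₀, hl₀, hall⟩ := rz6 hli (100 * N ^ 2) p hp2 S (by convert hSsub) (θ₀ : UnitAddCircle) ρ ε hρ hε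
  refine ⟨l₀, hl₀, fun l hll => ?_⟩
  have hl : 1 ≤ l := hl₀.trans hll
  obtain ⟨r, hr, w, hw0, hw1, hws, hw⟩ := hall l hll
  obtain ⟨e, he1, he2⟩ := exists_shift_unit (p := p) (l := l) hl hp2
  by_contra hcon
  push Not at hcon
  obtain ⟨C₁, hC₁, h⟩ := hypQ_of_pointwise (k := 2 * l) hp hcon
  have hch0 := fun (χ : DirichletCharacter ℂ (p ^ (2 * l))) (hχ : χ.IsPrimitive) =>
    Mx_chi hp (show 1 ≤ 2 * l by omega) hC₁ h hχ
  have hq : 2 ≤ p ^ (2 * l) := by
    calc 2 ≤ p := hp.two_le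
      _ = p ^ 1 := (pow_one p).symm
      _ ≤ p ^ (2 * l) := Nat.pow_le_pow_right hp.pos (by omega)
  -- the coefficients
  set γ : DirichletCharacter ℂ (p ^ (2 * l)) → ℂ := fun χ => 1 / 2 * ∑ b, (w b : ℂ) *
    (cf (p ^ (2 * l)) ((b ^ 2 : (ZMod (p ^ (2 * l)))ˣ) : ZMod (p ^ (2 * l))) χ -
      cf (p ^ (2 * l)) (((b * e) ^ 2 : (ZMod (p ^ (2 * l)))ˣ) : ZMod (p ^ (2 * l))) χ) with hγ
  set TR : ℕ → ℂ := gR (p ^ (2 * l)) γ with hTR
  set TL : ℕ → ℂ := gL (p ^ (2 * l)) γ with hTL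
  have hTRn : ∀ n, TR n = 1 / 2 * ∑ b, (w b : ℂ) *
      (cR (p ^ (2 * l)) ((b ^ 2 : (ZMod (p ^ (2 * l)))ˣ) : ZMod (p ^ (2 * l))) n -
        cR (p ^ (2 * l)) (((b * e) ^ 2 : (ZMod (p ^ (2 * l)))ˣ) : ZMod (p ^ (2 * l))) n) := by
    intro n
    rw [hTR]
    unfold gR cR
    rw [hγ]
    simp only [mul_assoc, Finset.sum_mul]
    rw [← Finset.mul_sum (s := Ev (p ^ (2 * l)))]
    congr 1
    rw [Finset.sum_comm]
    refine Finset.sum_congr rfl fun b _ => ?_
    rw [← Finset.sum_sub_distrib, Finset.mul_sum (s := Ev (p ^ (2 * l)))]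
    refine Finset.sum_congr rfl fun χ _ => ?_
    ring
  have hTLn : ∀ n, TL n = 1 / 2 * ∑ b, (w b : ℂ) *
      (cL (p ^ (2 * l)) ((b ^ 2 : (ZMod (p ^ (2 * l)))ˣ) : ZMod (p ^ (2 * l))) n -
        cL (p ^ (2 * l)) (((b * e) ^ 2 : (ZMod (p ^ (2 * l)))ˣ) : ZMod (p ^ (2 * l))) n) := by
    intro n
    rw [hTL]
    unfold gL cL
    rw [hγ]
    simp only [mul_assoc, Finset.sum_mul]
    rw [← Finset.mul_sum (s := Ev (p ^ (2 * l)))]
    congr 1
    rw [Finset.sum_comm]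
    refine Finset.sum_congr rfl fun b _ => ?_
    rw [← Finset.sum_sub_distrib, Finset.mul_sum (s := Ev (p ^ (2 * l)))]
    refine Finset.sum_congr rfl fun χ _ => ?_
    ring
  have hTR2 : ∀ n, ‖TR n‖ ≤ 2 := by
    intro n
    rw [hTRn, norm_mul]
    have e1 : ‖∑ b, (w b : ℂ) *
      (cR (p ^ (2 * l)) ((b ^ 2 : (ZMod (p ^ (2 * l)))ˣ) : ZMod (p ^ (2 * l))) n -
        cR (p ^ (2 * l)) (((b * e) ^ 2 : (ZMod (p ^ (2 * l)))ˣ) : ZMod (p ^ (2 * l))) n)‖ ≤ ∑ b, w b * 2 := by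
      refine (norm_sum_le _ _).trans (Finset.sum_le_sum fun b _ => ?_)
      rw [norm_mul, Complex.norm_real, Real.norm_of_nonneg (hw0 b)]
      refine mul_le_mul_of_nonneg_left ((norm_sub_le _ _).trans ?_) (hw0 b)
      have h1 := norm_cR_le hch hp hp2 hl (b ^ 2) n
      have h2 := norm_cR_le hch hp hp2 hl ((b * e) ^ 2) n
      linarith
    rw [← Finset.sum_mul, hw1, one_mul] at e1
    have e2 : ‖(1 / 2 : ℂ)‖ = 1 / 2 := by norm_num
    rw [e2]
    linarith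
  have hTL2 : ∀ n, ‖TL n‖ ≤ 2 := by
    intro n
    rw [hTLn, norm_mul]
    have e1 : ‖∑ b, (w b : ℂ) *
      (cL (p ^ (2 * l)) ((b ^ 2 : (ZMod (p ^ (2 * l)))ˣ) : ZMod (p ^ (2 * l))) n -
        cL (p ^ (2 * l)) (((b * e) ^ 2 : (ZMod (p ^ (2 * l)))ˣ) : ZMod (p ^ (2 * l))) n)‖ ≤ ∑ b, w b * 4 := by
      refine (norm_sum_le _ _).trans (Finset.sum_le_sum fun b _ => ?_)
      rw [norm_mul, Complex.norm_real, Real.norm_of_nonneg (hw0 b)]
      refine mul_le_mul_of_nonneg_left ((norm_sub_le _ _).trans ?_) (hw0 b)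
      have h1 := Two.norm_cL_le hch hkl hp hp2 hl (b ^ 2) n
      have h2 := Two.norm_cL_le hch hkl hp hp2 hl ((b * e) ^ 2) n
      linarith
    rw [← Finset.sum_mul, hw1, one_mul] at e1
    have e2 : ‖(1 / 2 : ℂ)‖ = 1 / 2 := by norm_num
    rw [e2]
    linarith
  -- the bound on the right
  have hloc1 : ∀ θ : ℝ, |θ - θ₀| < ρ → ∀ R : ℕ, ‖F R θ‖ ≤ C' * Real.sqrt R := fun θ hθ R =>
    (hloc θ hθ R).1.trans (mul_le_mul_of_nonneg_right (le_max_left _ _) (Real.sqrt_nonneg _))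
  have hloc2 : ∀ θ : ℝ, |θ - (θ₀ + 1 / p)| < ρ → ∀ R : ℕ, ‖F R θ‖ ≤ C' * Real.sqrt R := by
    intro θ hθ R
    have h1 := (hloc (θ - 1 / p) (by rw [show θ - 1 / p - θ₀ = θ - (θ₀ + 1 / p) by ring]; exact hθ) R).2
    rw [sub_add_cancel] at h1
    exact h1.trans (mul_le_mul_of_nonneg_right (le_max_left _ _) (Real.sqrt_nonneg _))
  have hMR : ∃ v₀ : ℝ, ∀ v, v₀ ≤ v → ‖Mx TR v‖ ≤ C' * Real.sqrt v := by
    refine ⟨0, fun v hv => ?_⟩
    have e1 : Mx TR v = 1 / 2 * ∑ b, (w b : ℂ) *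
        (Mx (cR (p ^ (2 * l)) ((b ^ 2 : (ZMod (p ^ (2 * l)))ˣ) : ZMod (p ^ (2 * l)))) v -
          Mx (cR (p ^ (2 * l)) (((b * e) ^ 2 : (ZMod (p ^ (2 * l)))ˣ) : ZMod (p ^ (2 * l)))) v) := by
      unfold Mx
      simp only [hTRn]
      simp only [Finset.mul_sum, ← Finset.sum_sub_distrib]
      rw [Finset.sum_comm]
      refine Finset.sum_congr rfl fun b _ => Finset.sum_congr rfl fun n _ => ?_
      ring
    have e2 : ∀ b, w b ≠ 0 →
        ‖Mx (cR (p ^ (2 * l)) ((b ^ 2 : (ZMod (p ^ (2 * l)))ˣ) : ZMod (p ^ (2 * l)))) v -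
          Mx (cR (p ^ (2 * l)) (((b * e) ^ 2 : (ZMod (p ^ (2 * l)))ˣ) : ZMod (p ^ (2 * l)))) v‖ ≤
          2 * (C' * Real.sqrt v) := by
      intro b hb
      obtain ⟨hbc, hbn⟩ := hws b hb
      rw [Mx_cR hch hp hp2 hl, Mx_cR hch hp hp2 hl, cop_neg, cop_neg]
      set a : ZMod (p ^ (2 * l)) := ((b ^ 2 : (ZMod (p ^ (2 * l)))ˣ) : ZMod (p ^ (2 * l))) with ha
      have ha' : (((b * e) ^ 2 : (ZMod (p ^ (2 * l)))ˣ) : ZMod (p ^ (2 * l))) =
          a + (p : ZMod (p ^ (2 * l))) ^ (2 * l - 1) := by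
        rw [ha, Units.val_pow_eq_pow_val, Units.val_pow_eq_pow_val]
        exact he1 b hbc
      rw [ha']
      have e3 := cop_diff (p := p) hl a v
      have hpt : pt b = ZMod.toAddCircle a := by
        unfold pt
        rw [ha, Units.val_pow_eq_pow_val]
      have e4 := near_bound hloc1 a (by rw [← hpt]; exact hbn) ⌊v⌋₊
      have e5 := near_bound hloc2 (a + (p : ZMod (p ^ (2 * l))) ^ (2 * l - 1)) (by
        have h1 : ZMod.toAddCircle ((p : ZMod (p ^ (2 * l))) ^ (2 * l - 1)) =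
            ((1 / p : ℝ) : UnitAddCircle) := by
          have h2 := ZMod.toAddCircle_intCast (N := p ^ (2 * l)) ((p ^ (2 * l - 1) : ℕ) : ℤ)
          have h3 : ((((p ^ (2 * l - 1) : ℕ) : ℤ)) : ZMod (p ^ (2 * l))) =
              (p : ZMod (p ^ (2 * l))) ^ (2 * l - 1) := by
            push_cast
            rfl
          rw [h3] at h2
          rw [h2]
          congr 1
          have h4 : ((p ^ (2 * l) : ℕ) : ℝ) = (p : ℝ) ^ (2 * l - 1) * p := by
            rw [← pow_succ]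
            push_cast
            congr 1
            omega
          have h5 : (p : ℝ) ≠ 0 := Nat.cast_ne_zero.mpr hp.ne_zero
          rw [h4]
          push_cast
          field_simp
        rw [map_add, h1, ← hpt, AddCircle.coe_add, add_sub_add_right_eq_sub]
        exact hbn) ⌊v⌋₊
      have e6 : ‖Mx (cop p (2 * l) a) v - Mx (cop p (2 * l) (a + (p : ZMod (p ^ (2 * l))) ^ (2 * l - 1))) v‖ ≤
          2 * (C' * Real.sqrt v) := by
        rw [e3]
        refine (norm_sub_le _ _).trans ?_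
        have h1 := floor_bound (v := v) hC hv
        linarith
      have e7 : (Mx (cop p (2 * l) a) v + (starRingEnd ℂ) (Mx (cop p (2 * l) a) v)) / 2 -
          (Mx (cop p (2 * l) (a + (p : ZMod (p ^ (2 * l))) ^ (2 * l - 1))) v +
            (starRingEnd ℂ) (Mx (cop p (2 * l) (a + (p : ZMod (p ^ (2 * l))) ^ (2 * l - 1))) v)) / 2 =
          ((Mx (cop p (2 * l) a) v - Mx (cop p (2 * l) (a + (p : ZMod (p ^ (2 * l))) ^ (2 * l - 1))) v) +
            (starRingEnd ℂ) (Mx (cop p (2 * l) a) v -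
              Mx (cop p (2 * l) (a + (p : ZMod (p ^ (2 * l))) ^ (2 * l - 1))) v)) / 2 := by
        rw [map_sub]
        ring
      rw [e7, norm_div, Complex.norm_ofNat]
      have e8 := norm_add_le
        (Mx (cop p (2 * l) a) v - Mx (cop p (2 * l) (a + (p : ZMod (p ^ (2 * l))) ^ (2 * l - 1))) v)
        ((starRingEnd ℂ) (Mx (cop p (2 * l) a) v -
          Mx (cop p (2 * l) (a + (p : ZMod (p ^ (2 * l))) ^ (2 * l - 1))) v))
      rw [RCLike.norm_conj] at e8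
      linarith
    rw [e1, norm_mul]
    have e9 : ‖∑ b, (w b : ℂ) *
        (Mx (cR (p ^ (2 * l)) ((b ^ 2 : (ZMod (p ^ (2 * l)))ˣ) : ZMod (p ^ (2 * l)))) v -
          Mx (cR (p ^ (2 * l)) (((b * e) ^ 2 : (ZMod (p ^ (2 * l)))ˣ) : ZMod (p ^ (2 * l)))) v)‖ ≤
        ∑ b, w b * (2 * (C' * Real.sqrt v)) := by
      refine (norm_sum_le _ _).trans (Finset.sum_le_sum fun b _ => ?_)
      rw [norm_mul, Complex.norm_real, Real.norm_of_nonneg (hw0 b)]
      rcases eq_or_ne (w b) 0 with hb | hb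
      · rw [hb, zero_mul, zero_mul]
      · exact mul_le_mul_of_nonneg_left (e2 b hb) (hw0 b)
    rw [← Finset.sum_mul, hw1, one_mul] at e9
    have e10 : ‖(1 / 2 : ℂ)‖ = 1 / 2 := by norm_num
    rw [e10]
    linarith
  set lam : ℝ := Real.log ((p ^ (2 * l) : ℕ) / Real.pi) / 2 with hlam
  have hlam0 : 0 ≤ lam := by
    rw [hlam]
    refine div_nonneg (Real.log_nonneg ?_) (by norm_num)
    rw [le_div_iff₀ Real.pi_pos, one_mul]
    have h1 : 3 ≤ p := by
      have := hp.two_le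
      omega
    have h2 : 3 ^ 2 ≤ p ^ (2 * l) := (Nat.pow_le_pow_left h1 2).trans (Nat.pow_le_pow_right hp.pos (by omega))
    have h3 : ((3 ^ 2 : ℕ) : ℝ) ≤ ((p ^ (2 * l) : ℕ) : ℝ) := by exact_mod_cast h2
    have := Real.pi_lt_four
    norm_num at h3 ⊢
    linarith
  set U : ℝ := Real.log (10 * N) + lam with hU
  have hZ : (0 : ℝ) < 10 * N := by linarith
  have hlogZ : 0 ≤ Real.log (10 * N) := Real.log_nonneg (by linarith)
  have hmain := series_gen (p ^ (2 * l)) htrig hsup hlap hlim hpair hser hq (C₂ := C') γ hch0 hMR hTR2 hTL2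
    lam U (by rw [hlam])
  have he1 : Real.exp (lam - U) = 1 / (10 * N) := by
    rw [hU, show lam - (Real.log (10 * N) + lam) = -Real.log (10 * N) by ring, Real.exp_neg, Real.exp_log hZ,
      one_div]
  rw [he1] at hmain
  -- averages of Kloosterman sums
  have hp0 : (p : ℂ) ^ l ≠ 0 := pow_ne_zero _ (Nat.cast_ne_zero.mpr hp.ne_zero)
  have havg : ∀ (g : ℤ) (g' : (ZMod (p ^ (2 * l)))ˣ), (g' : ZMod (p ^ (2 * l))) = (g : ZMod (p ^ (2 * l))) →
      Squarefree g → ¬ (p : ℤ) ∣ g → -((100 * N ^ 2 : ℕ) : ℤ) ≤ g → g ≤ ((100 * N ^ 2 : ℕ) : ℤ) →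
      ∃ η : ℝ, |η - κ * tar S g| ≤ 2 * ε ∧
      ∑ b, (w b : ℂ) * (Kl (p ^ (2 * l)) ((b ^ 2 * g'⁻¹ : (ZMod (p ^ (2 * l)))ˣ) : ZMod (p ^ (2 * l))) -
        Kl (p ^ (2 * l)) (((b * e) ^ 2 * g'⁻¹ : (ZMod (p ^ (2 * l)))ˣ) : ZMod (p ^ (2 * l)))) =
        2 * (p : ℂ) ^ l * (η : ℂ) := by
    intro g g' hg' hg1 hg2 hg3 hg4
    by_cases hsq : IsSquare (g : ZMod p)
    · have hgG : g ∈ Gs (100 * N ^ 2) p := by
        rw [mem_Gs]
        exact ⟨⟨hg3, hg4⟩, hg1, hg2, hsq⟩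
      have h1 : ∀ b : (ZMod (p ^ (2 * l)))ˣ,
          Kl (p ^ (2 * l)) ((b ^ 2 * g'⁻¹ : (ZMod (p ^ (2 * l)))ˣ) : ZMod (p ^ (2 * l))) =
          2 * (p : ℂ) ^ l * ((ee (p ^ (2 * l)) (2 * b * r g)).re : ℂ) := fun b =>
        Kl_div hkl hp hp2 hl b (r g) g' (by rw [hg']; exact hr g hgG)
      simp only [h1]
      set ζ : ℂ := ee (p ^ (2 * l)) ((p : ZMod (p ^ (2 * l))) ^ (2 * l - 1) * r g) with hζ
      have hζn : ‖ζ‖ = 1 := norm_ee' _
      set s : ℂ := ∑ b, (w b : ℂ) * ee (p ^ (2 * l)) (2 * (b : ZMod (p ^ (2 * l))) * r g) with hs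
      have hsn : ‖s - tar S g‖ ≤ ε := hw g hgG
      have h2 : ∀ b, (w b : ℂ) * (2 * (p : ℂ) ^ l * ((ee (p ^ (2 * l)) (2 * b * r g)).re : ℂ) -
          2 * (p : ℂ) ^ l * ((ee (p ^ (2 * l))
            (2 * ((b * e : (ZMod (p ^ (2 * l)))ˣ) : ZMod (p ^ (2 * l))) * r g)).re : ℂ)) =
          2 * (p : ℂ) ^ l * ((((w b : ℂ) * ee (p ^ (2 * l)) (2 * (b : ZMod (p ^ (2 * l))) * r g)) * (1 - ζ)).re : ℂ) := by
        intro b
        rcases eq_or_ne (w b) 0 with hb | hb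
        · rw [hb]
          simp
        · have h3 : ee (p ^ (2 * l)) (2 * ((b * e : (ZMod (p ^ (2 * l)))ˣ) : ZMod (p ^ (2 * l))) * r g) =
              ee (p ^ (2 * l)) (2 * (b : ZMod (p ^ (2 * l))) * r g) * ζ := by
            rw [he2 b (hws b hb).1, ee_add']
          rw [h3]
          generalize ee (p ^ (2 * l)) (2 * (b : ZMod (p ^ (2 * l))) * r g) = z
          have h4 : ((w b : ℂ) * z * (1 - ζ)).re = w b * (z.re - (z * ζ).re) := by
            rw [mul_assoc, Complex.re_ofReal_mul, mul_sub, mul_one, Complex.sub_re]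
          rw [h4]
          push_cast
          ring
      refine ⟨(s * (1 - ζ)).re, ?_, ?_⟩
      · have h3 : tar S g * (1 - ζ).re = κ * tar S g := by
          by_cases hgS : g ∈ S
          · have h4 : ζ.re = Real.cos (2 * Real.pi / p) := by
              rw [hζ]
              refine re_zeta hl (r g) ?_
              rw [hS, Finset.mem_image] at hgS
              obtain ⟨m, hm, rfl⟩ := hgS
              have hm2 : m % p = 1 := by
                rw [hSn] at hm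
                exact (Finset.mem_filter.mp hm).2.2
              have h5 := hr _ hgG
              obtain ⟨t, ht⟩ : ∃ t : ℕ, m = 1 + p * t := ⟨m / p, by
                have := Nat.mod_add_div m p
                omega⟩
              have h6 : (p : ZMod (p ^ (2 * l))) ^ (2 * l - 1) * (((m : ℕ) : ℤ) : ZMod (p ^ (2 * l))) =
                  (p : ZMod (p ^ (2 * l))) ^ (2 * l - 1) := by
                have h7 : (p : ZMod (p ^ (2 * l))) ^ (2 * l - 1) * (p : ZMod (p ^ (2 * l))) = 0 := by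
                  rw [← pow_succ]
                  exact ppow_zero (by omega)
                rw [ht]
                push_cast
                linear_combination (t : ZMod (p ^ (2 * l))) * h7
              calc (p : ZMod (p ^ (2 * l))) ^ (2 * l - 1) * (r ((m : ℕ) : ℤ) : ZMod (p ^ (2 * l))) ^ 2
                  = (p : ZMod (p ^ (2 * l))) ^ (2 * l - 1) * (((m : ℕ) : ℤ) : ZMod (p ^ (2 * l))) *
                    (r ((m : ℕ) : ℤ) : ZMod (p ^ (2 * l))) ^ 2 := by rw [h6]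
                _ = (p : ZMod (p ^ (2 * l))) ^ (2 * l - 1) := by rw [mul_assoc, h5, mul_one]
            rw [Complex.sub_re, Complex.one_re, h4]
            ring
          · have h4 : tar S g = 0 := by
              unfold tar
              rw [if_neg hgS]
            rw [h4, zero_mul, mul_zero]
        have h4 : (s * (1 - ζ)).re - κ * tar S g = ((s - tar S g) * (1 - ζ)).re := by
          have h5 : ((tar S g : ℂ) * (1 - ζ)).re = tar S g * (1 - ζ).re := Complex.re_ofReal_mul _ _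
          rw [sub_mul s (tar S g : ℂ) (1 - ζ), Complex.sub_re (s * (1 - ζ)), h5, h3]
        rw [h4]
        refine (Complex.abs_re_le_norm _).trans ?_
        rw [norm_mul]
        have h5 : ‖1 - ζ‖ ≤ 2 := by
          refine (norm_sub_le _ _).trans ?_
          rw [norm_one, hζn]
          norm_num
        calc ‖s - tar S g‖ * ‖1 - ζ‖ ≤ ε * 2 := mul_le_mul hsn h5 (norm_nonneg _) hε.le
          _ = 2 * ε := by ring
      · rw [Finset.sum_congr rfl (fun b _ => h2 b), ← Finset.mul_sum]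
        congr 1
        rw [hs, Finset.sum_mul, Complex.re_sum, Complex.ofReal_sum]
    · have hgS : g ∉ S := by
        intro hgS
        exact hsq (mem_Gs.mp (hSsub hgS)).2.2.2
      refine ⟨0, ?_, ?_⟩
      · unfold tar
        rw [if_neg hgS, mul_zero, sub_zero, abs_zero]
        positivity
      · rw [Complex.ofReal_zero, mul_zero]
        refine Finset.sum_eq_zero fun b _ => ?_
        rw [(hkl p l hp hp2 hl).2.1 _ (not_square hl g g' b hg' hsq),
          (hkl p l hp hp2 hl).2.1 _ (not_square hl g g' (b * e) hg' hsq), sub_zero, mul_zero]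
  -- small coefficients
  have hsmall : ∀ m : ℕ, 1 ≤ m → m ≤ 100 * N ^ 2 →
      ‖mu m * TL m - (if m ∈ Sn then ((κ / 4 : ℝ) : ℂ) else 0)‖ ≤ 2 * ε := by
    intro m hm1 hm2
    by_cases hsqf : Squarefree m
    · by_cases hpm : p ∣ m
      · have h1 : m ∉ Sn := by
          intro hm
          rw [hSn, Finset.mem_filter] at hm
          have := Nat.mod_eq_zero_of_dvd hpm
          omega
        have h2 : TL m = 0 := by
          rw [hTL]
          unfold gL
          refine Finset.sum_eq_zero fun χ _ => ?_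
          rw [MulChar.map_nonunit _ (not_isUnit_nat (l := l) hp hl m hpm), mul_zero]
        rw [h2, if_neg h1, mul_zero, sub_zero, norm_zero]
        positivity
      · obtain ⟨m', hm'⟩ := isUnit_nat (l := l) hp m hpm
        have hpZ : ¬ (p : ℤ) ∣ (m : ℤ) := fun hd => hpm (by exact_mod_cast hd)
        have hsqZ : Squarefree (m : ℤ) := Int.squarefree_natCast.mpr hsqf
        have hmle : (m : ℤ) ≤ ((100 * N ^ 2 : ℕ) : ℤ) := by exact_mod_cast hm2
        obtain ⟨η₁, hη₁, e1⟩ := havg (m : ℤ) m' (by rw [hm']; push_cast; rfl) hsqZ hpZ (by omega) hmle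
        obtain ⟨η₂, hη₂, e2⟩ := havg (-(m : ℤ)) (-m') (by rw [Units.val_neg, hm']; push_cast; rfl)
          (by
            have := hsqZ
            rwa [← Int.squarefree_natAbs, Int.natAbs_neg, Int.squarefree_natAbs]) (by
            rwa [Int.dvd_neg]) (by omega) (by omega)
        have h1 : TL m = ((η₁ : ℂ) + (η₂ : ℂ)) / 2 := by
          have hcL : ∀ b : (ZMod (p ^ (2 * l)))ˣ,
              cL (p ^ (2 * l)) ((b ^ 2 : (ZMod (p ^ (2 * l)))ˣ) : ZMod (p ^ (2 * l))) m =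
              (Kl (p ^ (2 * l)) ((b ^ 2 * m'⁻¹ : (ZMod (p ^ (2 * l)))ˣ) : ZMod (p ^ (2 * l))) +
                Kl (p ^ (2 * l)) ((b ^ 2 * (-m')⁻¹ : (ZMod (p ^ (2 * l)))ˣ) : ZMod (p ^ (2 * l)))) /
                (2 * (p : ℂ) ^ l) := by
            intro b
            rw [cL_eq hch hp hp2 hl (b ^ 2) m' m hm']
            have h4 : -((b ^ 2 * m'⁻¹ : (ZMod (p ^ (2 * l)))ˣ) : ZMod (p ^ (2 * l))) =
                ((b ^ 2 * (-m')⁻¹ : (ZMod (p ^ (2 * l)))ˣ) : ZMod (p ^ (2 * l))) := by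
              rw [← Units.val_neg]
              congr 1
              rw [inv_neg, mul_neg]
            rw [h4]
          rw [hTLn]
          simp only [hcL]
          have h5 : ∑ b, (w b : ℂ) *
              ((Kl (p ^ (2 * l)) ((b ^ 2 * m'⁻¹ : (ZMod (p ^ (2 * l)))ˣ) : ZMod (p ^ (2 * l))) +
                Kl (p ^ (2 * l)) ((b ^ 2 * (-m')⁻¹ : (ZMod (p ^ (2 * l)))ˣ) : ZMod (p ^ (2 * l)))) /
                (2 * (p : ℂ) ^ l) -
              (Kl (p ^ (2 * l)) (((b * e) ^ 2 * m'⁻¹ : (ZMod (p ^ (2 * l)))ˣ) : ZMod (p ^ (2 * l))) +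
                Kl (p ^ (2 * l)) (((b * e) ^ 2 * (-m')⁻¹ : (ZMod (p ^ (2 * l)))ˣ) : ZMod (p ^ (2 * l)))) /
                (2 * (p : ℂ) ^ l)) =
              (∑ b, (w b : ℂ) *
                (Kl (p ^ (2 * l)) ((b ^ 2 * m'⁻¹ : (ZMod (p ^ (2 * l)))ˣ) : ZMod (p ^ (2 * l))) -
                Kl (p ^ (2 * l)) (((b * e) ^ 2 * m'⁻¹ : (ZMod (p ^ (2 * l)))ˣ) : ZMod (p ^ (2 * l)))) +
              ∑ b, (w b : ℂ) *
                (Kl (p ^ (2 * l)) ((b ^ 2 * (-m')⁻¹ : (ZMod (p ^ (2 * l)))ˣ) : ZMod (p ^ (2 * l))) -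
                Kl (p ^ (2 * l)) (((b * e) ^ 2 * (-m')⁻¹ : (ZMod (p ^ (2 * l)))ˣ) : ZMod (p ^ (2 * l))))) /
                (2 * (p : ℂ) ^ l) := by
            rw [← Finset.sum_add_distrib, Finset.sum_div]
            refine Finset.sum_congr rfl fun b _ => ?_
            ring
          rw [h5, e1, e2]
          field_simp
        have htar1 : tar S (m : ℤ) = if m ∈ Sn then ((ArithmeticFunction.moebius m : ℤ) : ℝ) / 2 else 0 := by
          unfold tar
          have h6 : ((m : ℤ) ∈ S) = (m ∈ Sn) := propext (hSmem m)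
          simp only [h6, Int.natAbs_natCast]
        have htar2 : tar S (-(m : ℤ)) = 0 := by
          unfold tar
          rw [if_neg (hSneg m hm1)]
        have hmain' : mu m * ((κ * tar S (m : ℤ) / 2 : ℝ) : ℂ) = if m ∈ Sn then ((κ / 4 : ℝ) : ℂ) else 0 := by
          rw [htar1]
          by_cases hmS : m ∈ Sn
          · rw [if_pos hmS, if_pos hmS]
            unfold mu
            have h3 : (ArithmeticFunction.moebius m : ℤ) ^ 2 = 1 :=
              ArithmeticFunction.moebius_sq_eq_one_of_squarefree hsqf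
            have h4 : ((ArithmeticFunction.moebius m : ℤ) : ℂ) * ((ArithmeticFunction.moebius m : ℤ) : ℂ) = 1 := by
              rw [← sq]; exact_mod_cast h3
            push_cast
            linear_combination ((κ : ℂ) / 4) * h4
          · rw [if_neg hmS, if_neg hmS]
            simp
        rw [← hmain', h1, ← mul_sub, norm_mul]
        have h7 : ‖((η₁ : ℂ) + (η₂ : ℂ)) / 2 - ((κ * tar S (m : ℤ) / 2 : ℝ) : ℂ)‖ ≤ 2 * ε := by
          have e3 : ((η₁ : ℂ) + (η₂ : ℂ)) / 2 - ((κ * tar S (m : ℤ) / 2 : ℝ) : ℂ) =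
              ((((η₁ - κ * tar S (m : ℤ)) + η₂) / 2 : ℝ) : ℂ) := by
            push_cast; ring
          rw [e3, Complex.norm_real, Real.norm_eq_abs, abs_div, abs_two]
          rw [htar2, mul_zero, sub_zero] at hη₂
          have e4 := abs_add_le (η₁ - κ * tar S (m : ℤ)) η₂
          linarith
        calc ‖mu m‖ * ‖((η₁ : ℂ) + (η₂ : ℂ)) / 2 - ((κ * tar S (m : ℤ) / 2 : ℝ) : ℂ)‖ ≤ 1 * (2 * ε) :=
              mul_le_mul (norm_mu_le _) h7 (norm_nonneg _) (by norm_num)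
          _ = 2 * ε := one_mul _
    · have h1 : mu m = 0 := by
        unfold mu
        rw [ArithmeticFunction.moebius_eq_zero_of_not_squarefree hsqf]
        simp
      have h2 : m ∉ Sn := fun hm => hsqf (Finset.mem_filter.mp hm).2.1
      rw [h1, if_neg h2, zero_mul, sub_zero, norm_zero]
      positivity
  -- exact coefficients
  set TL0 : ℕ → ℂ := fun m => if 1 ≤ m ∧ m ≤ 100 * N ^ 2 then (if m ∈ Sn then mu m * ((κ / 4 : ℝ) : ℂ) else 0) else TL m with hTL0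
  have hTL02 : ∀ n, ‖TL0 n‖ ≤ 2 := by
    intro n
    rw [hTL0]
    simp only
    split_ifs
    · rw [norm_mul, Complex.norm_real, Real.norm_of_nonneg (by positivity)]
      have := norm_mu_le n
      nlinarith [norm_nonneg (mu n)]
    · rw [norm_zero]
      norm_num
    · exact hTL2 n
  have hsmall0 : ∀ m : ℕ, 1 ≤ m → m ≤ 100 * N ^ 2 → mu m * TL0 m = if m ∈ Sn then ((κ / 4 : ℝ) : ℂ) else 0 := by
    intro m hm1 hm2
    rw [hTL0]
    simp only
    rw [if_pos ⟨hm1, hm2⟩]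
    by_cases hmS : m ∈ Sn
    · rw [if_pos hmS, if_pos hmS]
      have hsqf : Squarefree m := (Finset.mem_filter.mp hmS).2.1
      have h3 : (ArithmeticFunction.moebius m : ℤ) ^ 2 = 1 :=
        ArithmeticFunction.moebius_sq_eq_one_of_squarefree hsqf
      have h4 : mu m * mu m = 1 := by
        unfold mu
        rw [← sq]; exact_mod_cast h3
      rw [← mul_assoc, h4, one_mul]
    · rw [if_neg hmS, if_neg hmS, mul_zero]
  have hpert := perturb hvb N hN2 TL TL0 hTL2 hTL02 (2 * ε) (by positivity)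
    (fun m hm1 hm2 => by rw [hsmall0 m hm1 hm2]; exact hsmall m hm1 hm2)
    (fun m hm => by
      rw [hTL0]
      simp only
      rw [if_neg (by omega)])
  have hpert1 : ((100 * N ^ 2 : ℕ) : ℝ) * (2 * ε * (3 * (10 * N : ℝ) ^ 3)) = 1 := by
    rw [hεdef]
    have e1 : ((100 * N ^ 2 : ℕ) : ℝ) ≠ 0 := by
      push_cast
      positivity
    have e2 : (N : ℝ) ≠ 0 := hN0R.ne'
    field_simp
  rw [hpert1] at hpert
  have hlow := left_lower_gen (κ / 4) (by positivity) hvb N hN2 Sn (fun m hm => by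
    rw [hSn, Finset.mem_filter, Finset.mem_Icc] at hm
    exact hm.1) TL0 hTL02 hsmall0
  have hXU : 1 ≤ Real.exp (lam + U) := Real.one_le_exp (by rw [hU]; linarith)
  have hright := right_upper hvb (Real.exp (lam + U)) hXU TR hTR2
  set SR := ∑' n : ℕ, mu (n + 1) * TR (n + 1) * ((VR ((n + 1 : ℕ) * Real.exp (lam + U)) : ℝ) : ℂ) with hSR
  set SL := ∑' n : ℕ, mu (n + 1) * TL (n + 1) * ((VL ((n + 1 : ℕ) * (1 / (10 * N : ℝ))) : ℝ) : ℂ) with hSL
  set SL0 := ∑' n : ℕ, mu (n + 1) * TL0 (n + 1) * ((VL ((n + 1 : ℕ) * (1 / (10 * N : ℝ))) : ℝ) : ℂ) with hSL0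
  have hSL : ‖SL0‖ ≤ ‖SL‖ + 1 := by
    have e1 := norm_sub_norm_le SL0 SL
    rw [norm_sub_rev] at e1
    linarith
  -- multiply by exp (U/2)
  have hexp : (0 : ℝ) < Real.exp (U / 2) := Real.exp_pos _
  have h1 : Real.exp (-U / 2) * ‖SL‖ ≤ 5 * (C' * Real.exp (-lam / 2) * Kth) + Real.exp (U / 2) * ‖SR‖ := by
    have e1 : ‖(Real.exp (-U / 2) : ℂ) * SL‖ = Real.exp (-U / 2) * ‖SL‖ := by
      rw [norm_mul, Complex.norm_real, Real.norm_of_nonneg (Real.exp_pos _).le]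
    have e2 : ‖(Real.exp (U / 2) : ℂ) * SR‖ = Real.exp (U / 2) * ‖SR‖ := by
      rw [norm_mul, Complex.norm_real, Real.norm_of_nonneg (Real.exp_pos _).le]
    have e3 := norm_sub_norm_le ((Real.exp (-U / 2) : ℂ) * SL) ((Real.exp (U / 2) : ℂ) * SR)
    rw [norm_sub_rev] at e3
    rw [e1, e2] at e3
    linarith
  have h2 : ‖SL‖ ≤ Real.exp (U / 2) * (5 * (C' * Real.exp (-lam / 2) * Kth)) +
      Real.exp U * ‖SR‖ := by
    have e1 : Real.exp (U / 2) * (Real.exp (-U / 2) * ‖SL‖) = ‖SL‖ := by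
      rw [← mul_assoc, ← Real.exp_add, show U / 2 + -U / 2 = 0 by ring, Real.exp_zero, one_mul]
    have e2 : Real.exp (U / 2) * (Real.exp (U / 2) * ‖SR‖) = Real.exp U * ‖SR‖ := by
      rw [← mul_assoc, ← Real.exp_add, show U / 2 + U / 2 = U by ring]
    have e3 := mul_le_mul_of_nonneg_left h1 hexp.le
    rw [e1, mul_add, e2] at e3
    exact e3
  have h3 : Real.exp (U / 2) * (5 * (C' * Real.exp (-lam / 2) * Kth)) =
      5 * C' * Kth * Real.sqrt (10 * N) := by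
    have e1 : Real.exp (U / 2) = Real.sqrt (10 * N) * Real.exp (lam / 2) := by
      rw [hU, add_div, Real.exp_add]
      congr 1
      rw [Real.sqrt_eq_rpow, Real.rpow_def_of_pos hZ]
      congr 1
      ring
    have e2 : Real.exp (lam / 2) * Real.exp (-lam / 2) = 1 := by
      rw [← Real.exp_add, show lam / 2 + -lam / 2 = 0 by ring, Real.exp_zero]
    rw [e1]
    calc Real.sqrt (10 * N) * Real.exp (lam / 2) * (5 * (C' * Real.exp (-lam / 2) * Kth))
        = (Real.exp (lam / 2) * Real.exp (-lam / 2)) * (5 * C' * Kth * Real.sqrt (10 * N)) := by ring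
      _ = _ := by rw [e2, one_mul]
  have h4 : Real.exp U * ‖SR‖ ≤ 360 := by
    have e0 : Real.exp U ≤ Real.exp (lam + U) := Real.exp_le_exp.mpr (by linarith)
    have e1 : Real.exp (lam + U) ≤ Real.exp (lam + U) ^ 3 := by
      nlinarith [sq_nonneg (Real.exp (lam + U)), mul_self_nonneg (Real.exp (lam + U) - 1)]
    have hpos : 0 < Real.exp (lam + U) := Real.exp_pos _
    calc Real.exp U * ‖SR‖ ≤ Real.exp (lam + U) ^ 3 * (360 / Real.exp (lam + U) ^ 3) :=
          mul_le_mul (e0.trans e1) hright (norm_nonneg _) (by positivity)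
      _ = 360 := by field_simp
  have hfin : (Sn.card : ℝ) * (κ / 10) - 1 ≤ 5 * C' * Kth * Real.sqrt (10 * N) + 361 := by
    have e1 : (Sn.card : ℝ) * (2 * (κ / 4) / 5) = (Sn.card : ℝ) * (κ / 10) := by ring
    rw [e1] at hlow
    linarith
  have h5 : (1 : ℝ) ≤ Real.sqrt (10 * N) := by
    rw [Real.one_le_sqrt]; linarith
  have h6 : (5 * C' * Kth + 363) * (2 / κ) * Real.sqrt (10 * N) + 1 < N / (25 * p) := hN1
  have h7 : (N : ℝ) / (25 * p) = (N / (5 * p)) / 5 := by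
    rw [div_div]
    congr 1
    ring
  have h8 : ((5 * C' * Kth + 363) * (2 / κ) * Real.sqrt (10 * N) + 1) * (κ / 2) < N / (25 * p) * (κ / 2) :=
    mul_lt_mul_of_pos_right h6 (by positivity)
  have h9 : ((5 * C' * Kth + 363) * (2 / κ) * Real.sqrt (10 * N) + 1) * (κ / 2) =
      (5 * C' * Kth + 363) * Real.sqrt (10 * N) + κ / 2 := by
    field_simp
  have h10 : (N : ℝ) / (25 * p) * (κ / 2) = (N / (5 * p)) * (κ / 10) := by
    rw [h7]; ring
  have h11 : (N / (5 * p) : ℝ) * (κ / 10) ≤ Sn.card * (κ / 10) :=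
    mul_le_mul_of_nonneg_right hcard (by positivity)
  rw [h9, h10] at h8
  nlinarith

end Pool.Agent.Q275.ME
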