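import Pool.Agent.Q275.ME.SeriesC

/-!
# Differences of the coprime parts at `a / q` and `a / q + 1 / p`
-/

set_option autoImplicit false

open Filter Topology Finset

namespace Pool.Agent.Q275.ME

open Pool.Agent.Y821.ME Pool.Agent.Y821.ME.Two

theorem F_add_int (R : ℕ) (x : ℝ) (n : ℤ) : F R (x + n) = F R x := by
  unfold F
  refine sum_congr rfl fun m _ => ?_
  congr 1
  have h1 : (2 * Real.pi * Complex.I * m * ((x + n : ℝ) : ℂ) : ℂ) =
      2 * Real.pi * Complex.I * m * (x : ℂ) + ((m * n : ℤ) : ℂ) * (2 * Real.pi * Complex.I) := by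
    push_cast
    ring
  rw [h1, Complex.exp_add, Complex.exp_int_mul_two_pi_mul_I, mul_one]

/-- uniform square root bounds in a neighbourhood of `θ₀` and of `θ₀ + 1 / p` -/
def LocD (p : ℕ) (C θ₀ ρ : ℝ) : Prop :=
  ∀ θ : ℝ, |θ - θ₀| < ρ → ∀ R : ℕ, ‖F R θ‖ ≤ C * Real.sqrt R ∧ ‖F R (θ + 1 / p)‖ ≤ C * Real.sqrt R

theorem cop_neg {p k : ℕ} [NeZero (p ^ k)] (a : ZMod (p ^ k)) (v : ℝ) :
    Mx (cop p k (-a)) v = (starRingEnd ℂ) (Mx (cop p k a) v) := by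
  unfold Mx
  rw [map_sum]
  refine sum_congr rfl fun n _ => ?_
  rw [map_mul]
  have h1 : (starRingEnd ℂ) (mu n) = mu n := by
    unfold mu
    rw [Complex.conj_eq_iff_real]
    exact ⟨((ArithmeticFunction.moebius n : ℤ) : ℝ), by push_cast; rfl⟩
  rw [h1]
  congr 1
  unfold cop
  split_ifs
  · rw [map_zero]
  · rw [neg_mul]
    simp only [ee]
    exact AddChar.map_neg_eq_conj _ _

/-- the values near a point of the circle -/
theorem near_bound {q : ℕ} [NeZero q] {C θ₀ ρ : ℝ}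
    (h : ∀ θ : ℝ, |θ - θ₀| < ρ → ∀ R : ℕ, ‖F R θ‖ ≤ C * Real.sqrt R) (a : ZMod q)
    (ha : ‖ZMod.toAddCircle a - (θ₀ : UnitAddCircle)‖ < ρ) (R : ℕ) :
    ‖F R ((a.val / q : ℚ) : ℝ)‖ ≤ C * Real.sqrt R := by
  rw [ZMod.toAddCircle_apply, ← AddCircle.coe_sub, UnitAddCircle.norm_eq] at ha
  set k : ℤ := round ((a.val : ℝ) / (q : ℝ) - θ₀) with hk
  set x : ℝ := (a.val : ℝ) / (q : ℝ) - k with hx
  have hx0 : |x - θ₀| < ρ := by
    have e1 : x - θ₀ = (a.val : ℝ) / (q : ℝ) - θ₀ - k := by rw [hx]; ring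
    rw [e1]
    exact ha
  have e1 : ((a.val / q : ℚ) : ℝ) = x + (k : ℤ) := by
    rw [hx]
    push_cast
    ring
  rw [e1, F_add_int]
  exact h x hx0 R

section

variable {p l : ℕ} [Fact p.Prime]

/-- the difference of the coprime parts -/
theorem cop_diff (hl : 1 ≤ l) (a : ZMod (p ^ (2 * l))) (v : ℝ) :
    Mx (cop p (2 * l) a) v - Mx (cop p (2 * l) (a + (p : ZMod (p ^ (2 * l))) ^ (2 * l - 1))) v =
      F ⌊v⌋₊ ((a.val / (p ^ (2 * l) : ℕ) : ℚ) : ℝ) -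
        F ⌊v⌋₊ (((a + (p : ZMod (p ^ (2 * l))) ^ (2 * l - 1)).val / (p ^ (2 * l) : ℕ) : ℚ) : ℝ) := by
  rw [← Mx_ee, ← Mx_ee]
  unfold Mx
  rw [← sum_sub_distrib, ← sum_sub_distrib]
  refine sum_congr rfl fun n _ => ?_
  unfold cop
  beta_reduce
  by_cases h : p ∣ n
  · rw [if_pos h, if_pos h]
    obtain ⟨m, rfl⟩ := h
    have e1 : (a + (p : ZMod (p ^ (2 * l))) ^ (2 * l - 1)) * ((p * m : ℕ) : ZMod (p ^ (2 * l))) =
        a * ((p * m : ℕ) : ZMod (p ^ (2 * l))) := by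
      have e2 : (p : ZMod (p ^ (2 * l))) ^ (2 * l - 1) * (p : ZMod (p ^ (2 * l))) = 0 := by
        rw [← pow_succ]
        exact ppow_zero (by omega)
      push_cast
      linear_combination (m : ZMod (p ^ (2 * l))) * e2
    rw [e1]
    ring
  · rw [if_neg h, if_neg h]

/-- the unit `e = 1 + p ^ (2l - 1) / 2` -/
theorem exists_shift_unit (hl : 1 ≤ l) (hp2 : p ≠ 2) : ∃ e : (ZMod (p ^ (2 * l)))ˣ,
    (∀ b ∈ cls p l, ((b * e : (ZMod (p ^ (2 * l)))ˣ) : ZMod (p ^ (2 * l))) ^ 2 =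
      (b : ZMod (p ^ (2 * l))) ^ 2 + (p : ZMod (p ^ (2 * l))) ^ (2 * l - 1)) ∧
    ∀ b ∈ cls p l, ∀ r : ZMod (p ^ (2 * l)), 2 * ((b * e : (ZMod (p ^ (2 * l)))ˣ) : ZMod (p ^ (2 * l))) * r =
      2 * b * r + (p : ZMod (p ^ (2 * l))) ^ (2 * l - 1) * r := by
  have hp : p.Prime := Fact.out
  have hodd : Odd (p ^ (2 * l)) := (hp.odd_of_ne_two hp2).pow
  obtain ⟨h, hh⟩ : ∃ h : ZMod (p ^ (2 * l)), 2 * h = 1 := by
    obtain ⟨k, hk⟩ := hodd
    refine ⟨((k + 1 : ℕ) : ZMod (p ^ (2 * l))), ?_⟩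
    have e1 : ((2 * (k + 1) : ℕ) : ZMod (p ^ (2 * l))) = ((p ^ (2 * l) + 1 : ℕ) : ZMod (p ^ (2 * l))) := by
      congr 1
      omega
    have e2 : ((p ^ (2 * l) + 1 : ℕ) : ZMod (p ^ (2 * l))) = 1 := by
      rw [Nat.cast_add, ZMod.natCast_self, zero_add, Nat.cast_one]
    rw [e2] at e1
    rw [← e1]
    push_cast
    ring
  set P : ZMod (p ^ (2 * l)) := (p : ZMod (p ^ (2 * l))) ^ (2 * l - 1) with hP
  have hPP : P * P = 0 := by
    rw [hP, ← pow_add]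
    exact ppow_zero (by omega)
  have hnil : IsNilpotent (P * h) := (Commute.all _ _).isNilpotent_mul_right ⟨2, by rw [sq, hPP]⟩
  have hu : IsUnit ((1 : ZMod (p ^ (2 * l))) + P * h) :=
    hnil.isUnit_add_left_of_commute isUnit_one (Commute.all _ _)
  refine ⟨hu.unit, fun b hb => ?_, fun b hb r => ?_⟩
  · rw [mem_cls] at hb
    rw [Units.val_mul, IsUnit.unit_spec]
    linear_combination ((b : ZMod (p ^ (2 * l))) + 1) * hb + (P * b ^ 2) * hh +
      ((b : ZMod (p ^ (2 * l))) ^ 2 * h ^ 2) * hPP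
  · rw [mem_cls] at hb
    rw [Units.val_mul, IsUnit.unit_spec]
    linear_combination (r : ZMod (p ^ (2 * l))) * hb + (P * b * r) * hh

end

/-- pointwise bounds at all fractions give a bound with one constant -/
theorem hypQ_of_pointwise {p k : ℕ} (hp : p.Prime)
    (h : ∀ a : ℕ, ¬ p ∣ a → ∃ B : ℝ, ∀ R : ℕ, ‖F R ((a / (p ^ k : ℕ) : ℚ) : ℝ)‖ ≤ B * Real.sqrt R) :
    ∃ C₁ : ℝ, 0 ≤ C₁ ∧ HypQ C₁ p k := by
  have hex : ∀ a : ℕ, ∃ B : ℝ, 0 ≤ B ∧ (¬ p ∣ a → ∀ R : ℕ, ‖F R ((a / (p ^ k : ℕ) : ℚ) : ℝ)‖ ≤ B * Real.sqrt R) := by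
    intro a
    by_cases ha : p ∣ a
    · exact ⟨0, le_rfl, fun h' => absurd ha h'⟩
    · obtain ⟨B, hB⟩ := h a ha
      refine ⟨max B 0, le_max_right _ _, fun _ R => (hB R).trans ?_⟩
      exact mul_le_mul_of_nonneg_right (le_max_left _ _) (Real.sqrt_nonneg _)
  choose B hB0 hB using hex
  refine ⟨∑ a ∈ range (p ^ k), (∑ j ∈ range p, B (a + j * p ^ k)), ?_, ?_⟩
  · exact sum_nonneg fun a _ => sum_nonneg fun j _ => hB0 _
  · intro a ha
    refine Eventually.of_forall fun R => ?_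
    rcases Nat.eq_zero_or_pos k with hk | hk
    · -- the denominator is one
      have h1 := hB 1 (by
        intro hd
        exact hp.one_lt.ne' (Nat.dvd_one.mp hd)) R
      have e1 : (((a / (p ^ k : ℕ) : ℚ)) : ℝ) = ((1 / (p ^ k : ℕ) : ℚ) : ℝ) + ((a - 1 : ℤ) : ℝ) := by
        rw [hk]
        push_cast
        simp
      rw [e1, F_add_int]
      have e2 : ((1 / (p ^ k : ℕ) : ℚ) : ℝ) = (((1 : ℕ) / (p ^ k : ℕ) : ℚ) : ℝ) := by push_cast; rfl
      rw [e2]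
      refine h1.trans (mul_le_mul_of_nonneg_right ?_ (Real.sqrt_nonneg _))
      rw [hk]
      simp only [pow_zero, range_one, sum_singleton, zero_add, mul_one]
      exact single_le_sum (f := fun j => B j) (fun j _ => hB0 j) (mem_range.mpr hp.one_lt)
    · have hq : 0 < p ^ k := pow_pos hp.pos k
      set c := a % (p ^ k) with hc
      have hc1 : c < p ^ k := Nat.mod_lt _ hq
      have hc2 : ¬ p ∣ c := by
        intro hd
        apply ha
        rw [hc] at hd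
        exact (Nat.dvd_mod_iff (dvd_pow_self p hk.ne')).mp hd
      have h1 := hB c hc2 R
      obtain ⟨d, hd⟩ : ∃ d : ℕ, a = c + p ^ k * d := ⟨a / p ^ k, (Nat.mod_add_div a (p ^ k)).symm⟩
      have e1 : (((a / (p ^ k : ℕ) : ℚ)) : ℝ) = ((c / (p ^ k : ℕ) : ℚ) : ℝ) + ((d : ℤ) : ℝ) := by
        have e2 : (a : ℝ) = c + (p : ℝ) ^ k * d := by exact_mod_cast hd
        have e3 : ((p : ℝ) ^ k) ≠ 0 := by exact_mod_cast hq.ne'
        push_cast
        rw [e2]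
        field_simp
      rw [e1, F_add_int]
      refine h1.trans (mul_le_mul_of_nonneg_right ?_ (Real.sqrt_nonneg _))
      have h2 : B c ≤ ∑ j ∈ range p, B (c + j * p ^ k) := by
        have := single_le_sum (f := fun j => B (c + j * p ^ k)) (fun j _ => hB0 _) (mem_range.mpr hp.pos)
        simpa using this
      exact h2.trans (single_le_sum (f := fun a => ∑ j ∈ range p, B (a + j * p ^ k))
        (fun a _ => sum_nonneg fun j _ => hB0 _) (mem_range.mpr hc1))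

end Pool.Agent.Q275.ME
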