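import Pool.Agent.Q275.ME.LocalC
import Pool.Agent.Y821.ME.Fin2E

/-!
# The inequality between the two sides for a combination of even primitive characters

After `Pool.Agent.Y821.ME.Fin2C` and `Fin2D` (helper821).
-/

set_option autoImplicit false

open Filter Topology MeasureTheory Finset

namespace Pool.Agent.Q275.ME

open Pool.Agent.Y821.ME Pool.Agent.Y821.ME.Two

section

variable (q : ℕ) [NeZero q]

/-- a combination of even primitive characters -/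
noncomputable def gR (γ : DirichletCharacter ℂ q → ℂ) (n : ℕ) : ℂ := ∑ χ ∈ Ev q, γ χ * χ n

/-- the dual combination -/
noncomputable def gL (γ : DirichletCharacter ℂ q → ℂ) (n : ℕ) : ℂ :=
  ∑ χ ∈ Ev q, γ χ * (DirichletCharacter.rootNumber χ)⁻¹ * χ⁻¹ n

theorem gR_bound (γ : DirichletCharacter ℂ q → ℂ) (hch0 : ∀ χ : DirichletCharacter ℂ q, χ.IsPrimitive →
      ∃ B : ℝ, 0 ≤ B ∧ ∀ v : ℝ, 1 ≤ v → ‖Mx (fun n => χ n) v‖ ≤ B * Real.sqrt v) :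
    ∃ B : ℝ, ∀ v, 1 ≤ v → ‖Mx (gR q γ) v‖ ≤ B * Real.sqrt v := by
  have hBχ : ∀ χ : DirichletCharacter ℂ q, ∃ B : ℝ, χ.IsPrimitive → ∀ v, 1 ≤ v →
      ‖Mx (fun n => χ n) v‖ ≤ B * Real.sqrt v := by
    intro χ
    by_cases hp : χ.IsPrimitive
    · obtain ⟨B, -, hB⟩ := hch0 χ hp
      exact ⟨B, fun _ => hB⟩
    · exact ⟨0, fun hp' => absurd hp' hp⟩
  choose Bχ hBχ using hBχ
  refine ⟨∑ χ ∈ Ev q, ‖γ χ‖ * Bχ χ, fun v hv => ?_⟩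
  have h4 : gR q γ = fun n : ℕ => ∑ χ ∈ Ev q, γ χ * χ n := rfl
  rw [h4, Mx_sum (Ev q) (fun χ => γ χ) (fun χ n => χ n), Finset.sum_mul]
  refine (norm_sum_le _ _).trans (Finset.sum_le_sum fun χ hχ => ?_)
  rw [norm_mul, mul_assoc]
  have hχ' : χ.IsPrimitive := by
    classical
    unfold Ev at hχ
    exact (Finset.mem_filter.mp hχ).2.2
  exact mul_le_mul_of_nonneg_left (hBχ χ hχ' v hv) (norm_nonneg _)

theorem gL_bound (γ : DirichletCharacter ℂ q → ℂ) (hch0 : ∀ χ : DirichletCharacter ℂ q, χ.IsPrimitive →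
      ∃ B : ℝ, 0 ≤ B ∧ ∀ v : ℝ, 1 ≤ v → ‖Mx (fun n => χ n) v‖ ≤ B * Real.sqrt v) :
    ∃ B : ℝ, ∀ v, 1 ≤ v → ‖Mx (gL q γ) v‖ ≤ B * Real.sqrt v := by
  have hBχ : ∀ χ : DirichletCharacter ℂ q, ∃ B : ℝ, χ.IsPrimitive → ∀ v, 1 ≤ v →
      ‖Mx (fun n => χ n) v‖ ≤ B * Real.sqrt v := by
    intro χ
    by_cases hp : χ.IsPrimitive
    · obtain ⟨B, -, hB⟩ := hch0 χ hp
      exact ⟨B, fun _ => hB⟩
    · exact ⟨0, fun hp' => absurd hp' hp⟩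
  choose Bχ hBχ using hBχ
  refine ⟨∑ χ ∈ Ev q, ‖γ χ * (DirichletCharacter.rootNumber χ)⁻¹‖ * Bχ χ⁻¹, fun v hv => ?_⟩
  have h4 : gL q γ = fun n : ℕ => ∑ χ ∈ Ev q, γ χ * (DirichletCharacter.rootNumber χ)⁻¹ * χ⁻¹ n := rfl
  rw [h4, Mx_sum (Ev q) (fun χ => γ χ * (DirichletCharacter.rootNumber χ)⁻¹) (fun χ n => χ⁻¹ n),
    Finset.sum_mul]
  refine (norm_sum_le _ _).trans (Finset.sum_le_sum fun χ hχ => ?_)
  rw [norm_mul, mul_assoc]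
  have hχ' : χ.IsPrimitive := by
    classical
    unfold Ev at hχ
    exact (Finset.mem_filter.mp hχ).2.2
  exact mul_le_mul_of_nonneg_left (hBχ χ⁻¹ (inv_prim q hχ') v hv) (norm_nonneg _)

theorem inequality_gen (htrig : S_TRIG) (hsup : S_SUP) (hlap : S_LAP) (hlim : S_LIM) (hpair : S_PAIR)
    (hq : 2 ≤ q) {C₂ : ℝ} (γ : DirichletCharacter ℂ q → ℂ)
    (hch0 : ∀ χ : DirichletCharacter ℂ q, χ.IsPrimitive →
      ∃ B : ℝ, 0 ≤ B ∧ ∀ v : ℝ, 1 ≤ v → ‖Mx (fun n => χ n) v‖ ≤ B * Real.sqrt v)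
    (hv : ∃ v₀ : ℝ, ∀ v, v₀ ≤ v → ‖Mx (gR q γ) v‖ ≤ C₂ * Real.sqrt v) (u : ℝ) :
    ‖aF (Real.log (q / Real.pi) / 2) (Mx (gR q γ)) u - aF (Real.log (q / Real.pi) / 2) (Mx (gL q γ)) (-u)‖ ≤
      C₂ * Real.exp (-(Real.log (q / Real.pi) / 2) / 2) * Kth := by
  have hB := gR_bound q γ hch0
  classical
  set lam := Real.log (q / Real.pi) / 2 with hlam
  have hev : ∀ χ ∈ Ev q, χ.Even ∧ χ.IsPrimitive := fun χ hχ => by
    unfold Ev at hχ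
    exact (Finset.mem_filter.mp hχ).2
  have hBχ : ∀ χ : DirichletCharacter ℂ q, ∃ B : ℝ, χ.IsPrimitive → ∀ v, 1 ≤ v →
      ‖Mx (fun n => χ n) v‖ ≤ B * Real.sqrt v := by
    intro χ
    by_cases hp : χ.IsPrimitive
    · obtain ⟨B, -, hB⟩ := hch0 χ hp
      exact ⟨B, fun _ => hB⟩
    · exact ⟨0, fun hp' => absurd hp' hp⟩
  choose Bχ hBχ using hBχ
  have hP : ∀ χ ∈ Ev q, Pair (aF lam (Mx (fun n => χ n)))
      (fun u => (DirichletCharacter.rootNumber χ)⁻¹ * aF lam (Mx (fun n => χ⁻¹ n)) u) := by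
    intro χ hχ
    obtain ⟨he, hp⟩ := hev χ hχ
    refine hpair q χ hq hp he ⟨max (Bχ χ) (Bχ χ⁻¹), fun v hv => ⟨?_, ?_⟩⟩
    · exact (hBχ χ hp v hv).trans (mul_le_mul_of_nonneg_right (le_max_left _ _) (Real.sqrt_nonneg _))
    · exact (hBχ χ⁻¹ (inv_prim q hp) v hv).trans
        (mul_le_mul_of_nonneg_right (le_max_right _ _) (Real.sqrt_nonneg _))
  -- the function
  set A : ℝ → ℂ := fun u => ∑ χ ∈ Ev q, γ χ * (aF lam (Mx (fun n => χ n)) u -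
    (DirichletCharacter.rootNumber χ)⁻¹ * aF lam (Mx (fun n => χ⁻¹ n)) (-u)) with hA
  have hAeq : ∀ u, A u = aF lam (Mx (gR q γ)) u - aF lam (Mx (gL q γ)) (-u) := by
    intro u
    have h1 := aF_sum hlap (Ev q) (fun χ => γ χ) (fun χ n => χ n) lam Bχ
      (fun χ hχ v hv => hBχ χ (hev χ hχ).2 v hv) u
    have h2 := aF_sum hlap (Ev q) (fun χ => γ χ * (DirichletCharacter.rootNumber χ)⁻¹)
      (fun χ n => χ⁻¹ n) lam (fun χ => Bχ χ⁻¹)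
      (fun χ hχ v hv => hBχ χ⁻¹ (inv_prim q (hev χ hχ).2) v hv) (-u)
    have h3 : gR q γ = fun n : ℕ => ∑ χ ∈ Ev q, γ χ * χ n := rfl
    have h4 : gL q γ = fun n : ℕ => ∑ χ ∈ Ev q, γ χ * (DirichletCharacter.rootNumber χ)⁻¹ * χ⁻¹ n := rfl
    rw [h3, h4, h1, h2, hA, ← Finset.sum_sub_distrib]
    refine Finset.sum_congr rfl fun χ _ => ?_
    ring
  have hcont : ∀ χ ∈ Ev q, Continuous (fun u => aF lam (Mx (fun n => χ n)) u -
      (DirichletCharacter.rootNumber χ)⁻¹ * aF lam (Mx (fun n => χ⁻¹ n)) (-u)) := by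
    intro χ hχ
    exact (hP χ hχ).ca.sub ((hP χ hχ).cb.comp continuous_neg)
  have hbdd : ∀ χ ∈ Ev q, ∃ B : ℝ, ∀ u, ‖aF lam (Mx (fun n => χ n)) u -
      (DirichletCharacter.rootNumber χ)⁻¹ * aF lam (Mx (fun n => χ⁻¹ n)) (-u)‖ ≤ B := by
    intro χ hχ
    obtain ⟨B, hB⟩ := (hP χ hχ).bd
    refine ⟨B + B, fun u => (norm_sub_le _ _).trans (add_le_add (hB u).1 (hB (-u)).2.2.1)⟩
  have hdisc : Disc A := Disc_sum (Ev q) (fun χ => γ χ) _ hcont hbdd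
    (fun χ hχ => htrig _ _ (hP χ hχ))
  have hAc : Continuous A := continuous_finsetSum _ fun χ hχ => continuous_const.mul (hcont χ hχ)
  have hAb : ∃ B : ℝ, ∀ u, ‖A u‖ ≤ B := by
    have hex : ∀ χ : DirichletCharacter ℂ q, ∃ B : ℝ, χ ∈ Ev q → ∀ u, ‖aF lam (Mx (fun n => χ n)) u -
      (DirichletCharacter.rootNumber χ)⁻¹ * aF lam (Mx (fun n => χ⁻¹ n)) (-u)‖ ≤ B := by
      intro χ
      by_cases hχ : χ ∈ Ev q
      · obtain ⟨B, hB⟩ := hbdd χ hχ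
        exact ⟨B, fun _ => hB⟩
      · exact ⟨0, fun h => absurd h hχ⟩
    choose B hB using hex
    refine ⟨∑ χ ∈ Ev q, ‖γ χ‖ * B χ, fun u => (norm_sum_le _ _).trans
      (Finset.sum_le_sum fun χ hχ => ?_)⟩
    rw [norm_mul]
    exact mul_le_mul_of_nonneg_left (hB χ hχ u) (norm_nonneg _)
  -- the upper limit
  have hL : ∃ B : ℝ, ∀ v, 1 ≤ v → ‖Mx (gL q γ) v‖ ≤ B * Real.sqrt v := by
    refine ⟨∑ χ ∈ Ev q, ‖γ χ * (DirichletCharacter.rootNumber χ)⁻¹‖ * Bχ χ⁻¹, fun v hv => ?_⟩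
    have h4 : gL q γ = fun n : ℕ => ∑ χ ∈ Ev q, γ χ * (DirichletCharacter.rootNumber χ)⁻¹ * χ⁻¹ n := rfl
    rw [h4, Mx_sum (Ev q) (fun χ => γ χ * (DirichletCharacter.rootNumber χ)⁻¹) (fun χ n => χ⁻¹ n),
      Finset.sum_mul]
    refine (norm_sum_le _ _).trans (Finset.sum_le_sum fun χ hχ => ?_)
    rw [norm_mul, mul_assoc]
    exact mul_le_mul_of_nonneg_left (hBχ χ⁻¹ (inv_prim q (hev χ hχ).2) v hv) (norm_nonneg _)
  obtain ⟨BR, hBR⟩ := hB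
  obtain ⟨v₀, hv₀⟩ := hv
  obtain ⟨BL, hBL⟩ := hL
  obtain ⟨-, -, ⟨B', hB'⟩, -⟩ := hlap lam BL (Mx (gL q γ)) (Mx_measurable _) (Mx_lt_one _) hBL
  have hlimsup : ∀ ε : ℝ, 0 < ε → ∀ᶠ u in atTop, ‖A u‖ ≤ C₂ * Real.exp (-lam / 2) * Kth + ε := by
    intro ε hε
    have h1 := hlim lam BR C₂ v₀ (Mx (gR q γ)) (Mx_measurable _) (Mx_lt_one _) hBR hv₀ (ε / 2)
      (by positivity)
    have h2 : Tendsto (fun u : ℝ => B' * Real.exp (-u / 2)) atTop (𝓝 (B' * 0)) := by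
      refine Tendsto.const_mul _ ?_
      refine Real.tendsto_exp_atBot.comp ?_
      have h3 : (fun u : ℝ => -u / 2) = fun u => -(u / 2) := by funext u; ring
      rw [h3]
      exact tendsto_neg_atTop_atBot.comp (tendsto_id.atTop_div_const (by norm_num))
    rw [mul_zero] at h2
    have h5 := h2.eventually (gt_mem_nhds (half_pos hε))
    filter_upwards [h1, h5] with u hu1 hu2
    rw [hAeq]
    refine (norm_sub_le _ _).trans ?_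
    have h6 := (hB' (-u)).2
    linarith
  have := hsup A hAc hAb hdisc (C₂ * Real.exp (-lam / 2) * Kth) hlimsup u
  rwa [hAeq] at this


/-- the inequality between the two series -/
theorem series_gen (htrig : S_TRIG) (hsup : S_SUP) (hlap : S_LAP) (hlim : S_LIM) (hpair : S_PAIR)
    (hser : S_SER) (hq : 2 ≤ q) {C₂ : ℝ} (γ : DirichletCharacter ℂ q → ℂ)
    (hch0 : ∀ χ : DirichletCharacter ℂ q, χ.IsPrimitive →
      ∃ B : ℝ, 0 ≤ B ∧ ∀ v : ℝ, 1 ≤ v → ‖Mx (fun n => χ n) v‖ ≤ B * Real.sqrt v)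
    (hv : ∃ v₀ : ℝ, ∀ v, v₀ ≤ v → ‖Mx (gR q γ) v‖ ≤ C₂ * Real.sqrt v)
    (hR2 : ∀ n, ‖gR q γ n‖ ≤ 2) (hL2 : ∀ n, ‖gL q γ n‖ ≤ 2)
    (lam U : ℝ) (hlam : lam = Real.log (q / Real.pi) / 2) :
    ‖(Real.exp (U / 2) : ℂ) *
        ∑' n : ℕ, mu (n + 1) * gR q γ (n + 1) * (VR ((n + 1 : ℕ) * Real.exp (lam + U)) : ℝ) -
      (Real.exp (-U / 2) : ℂ) *
        ∑' n : ℕ, mu (n + 1) * gL q γ (n + 1) * (VL ((n + 1 : ℕ) * Real.exp (lam - U)) : ℝ)‖ ≤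
      5 * (C₂ * Real.exp (-lam / 2) * Kth) := by
  obtain ⟨BR, hMR⟩ := gR_bound q γ hch0
  obtain ⟨BL, hML⟩ := gL_bound q γ hch0
  have hA : ∀ u, ‖aF lam (Mx (gR q γ)) u - aF lam (Mx (gL q γ)) (-u)‖ ≤ C₂ * Real.exp (-lam / 2) * Kth := by
    intro u
    rw [hlam]
    exact inequality_gen q htrig hsup hlap hlim hpair hq γ hch0 hv u
  have hD := norm_D_le (fun t => aF lam (Mx (gR q γ)) t - aF lam (Mx (gL q γ)) (-t)) _ hA (-U)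
  rw [D_sub (aF lam (Mx (gR q γ))) (fun t => aF lam (Mx (gL q γ)) (-t))] at hD
  rw [(hser lam _ (gR q γ) hR2 hMR (-U)).1, (hser lam _ (gL q γ) hL2 hML (-U)).2] at hD
  rw [neg_neg, sub_neg_eq_add, ← sub_eq_add_neg] at hD
  exact hD

end

end Pool.Agent.Q275.ME
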