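import Pool.Agent.Q275.ME.MainC
import Pool.Agent.Y821.ME.Top2

/-!
# One `θ` for all constants
-/

set_option autoImplicit false

open Filter Topology

namespace Pool.Agent.Q275.ME

open Pool.Agent.Y821.ME

/-- the `θ` for which `F_R(θ)` is not `O(√R)` -/
def E : Set ℝ := {θ | ∀ C : ℝ, ∃ᶠ R : ℕ in atTop, C * Real.sqrt R < ‖F R θ‖}

theorem F_continuous (R : ℕ) : Continuous (fun θ : ℝ => F R θ) := by
  unfold F
  fun_prop

theorem mem_E_of {θ : ℝ} (h : ∀ B : ℝ, ∃ R : ℕ, B * Real.sqrt R < ‖F R θ‖) : θ ∈ E := by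
  intro C
  rw [frequently_atTop]
  intro N
  obtain ⟨R, hR⟩ := h (max C (Real.sqrt N))
  refine ⟨R, ?_, ?_⟩
  · by_contra hlt
    push Not at hlt
    have h1 := norm_F_le R θ
    have h2 : (R : ℝ) = Real.sqrt R * Real.sqrt R := (Real.mul_self_sqrt (Nat.cast_nonneg R)).symm
    have h3 : Real.sqrt R ≤ Real.sqrt N := Real.sqrt_le_sqrt (by exact_mod_cast hlt.le)
    have h4 : Real.sqrt R * Real.sqrt R ≤ Real.sqrt N * Real.sqrt R :=
      mul_le_mul_of_nonneg_right h3 (Real.sqrt_nonneg _)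
    have h5 : Real.sqrt N * Real.sqrt R ≤ max C (Real.sqrt N) * Real.sqrt R :=
      mul_le_mul_of_nonneg_right (le_max_right _ _) (Real.sqrt_nonneg _)
    linarith
  · exact lt_of_le_of_lt (mul_le_mul_of_nonneg_right (le_max_left _ _) (Real.sqrt_nonneg _)) hR

/-- the fractions `a / p ^ (2l)` in `E` -/
def Fr (p l : ℕ) : Prop := ∃ a : ℕ, a < p ^ (2 * l) ∧ ¬ p ∣ a ∧ ((a : ℝ) / (p : ℝ) ^ (2 * l)) ∈ E

theorem dichotomy : E ∈ residual ℝ ∨ ∃ P₀ : ℕ, ∀ p : ℕ, p.Prime → P₀ ≤ p →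
    ∃ l₀ : ℕ, 1 ≤ l₀ ∧ ∀ l : ℕ, l₀ ≤ l → Fr p l := by
  by_cases hd : ∀ n : ℕ, Dense {θ : ℝ | ∃ R : ℕ, (n : ℝ) * Real.sqrt R < ‖F R θ‖}
  · left
    have hopen : ∀ n : ℕ, IsOpen {θ : ℝ | ∃ R : ℕ, (n : ℝ) * Real.sqrt R < ‖F R θ‖} := by
      intro n
      have h1 : {θ : ℝ | ∃ R : ℕ, (n : ℝ) * Real.sqrt R < ‖F R θ‖} =
          ⋃ R : ℕ, {θ : ℝ | (n : ℝ) * Real.sqrt R < ‖F R θ‖} := by
        ext θ
        simp
      rw [h1]
      exact isOpen_iUnion fun R => isOpen_lt continuous_const (F_continuous R).norm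
    have hsub : (⋂ n : ℕ, {θ : ℝ | ∃ R : ℕ, (n : ℝ) * Real.sqrt R < ‖F R θ‖}) ⊆ E := by
      intro θ hθ
      refine mem_E_of fun B => ?_
      obtain ⟨n, hn⟩ := exists_nat_ge B
      obtain ⟨R, hR⟩ := Set.mem_iInter.mp hθ n
      exact ⟨R, lt_of_le_of_lt (mul_le_mul_of_nonneg_right hn (Real.sqrt_nonneg _)) hR⟩
    refine mem_of_superset ?_ hsub
    exact countable_iInter_mem.mpr fun n => residual_of_dense_open (hopen n) (hd n)
  · right
    push Not at hd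
    obtain ⟨n, hn⟩ := hd
    rw [dense_iff_inter_open] at hn
    push Not at hn
    obtain ⟨U, hU, ⟨θ₀, hθ₀⟩, hUn⟩ := hn
    obtain ⟨δ, hδ, hball⟩ := Metric.isOpen_iff.mp hU θ₀ hθ₀
    have hb : ∀ θ : ℝ, |θ - θ₀| < δ → ∀ R : ℕ, ‖F R θ‖ ≤ n * Real.sqrt R := by
      intro θ hθ R
      by_contra h1
      push Not at h1
      have h2 : θ ∈ U := hball (by rw [Metric.mem_ball, Real.dist_eq]; exact hθ)
      have h3 : θ ∈ U ∩ {θ : ℝ | ∃ R : ℕ, (n : ℝ) * Real.sqrt R < ‖F R θ‖} := ⟨h2, R, h1⟩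
      rw [hUn] at h3
      exact h3
    obtain ⟨P, hP⟩ := exists_nat_gt (2 / δ)
    refine ⟨max P 3, fun p hp hPp => ?_⟩
    have hp3 : 3 ≤ p := (le_max_right _ _).trans hPp
    have hpP : (P : ℝ) ≤ p := by exact_mod_cast (le_max_left _ _).trans hPp
    have hp0 : (0 : ℝ) < p := by
      have : 0 < p := by omega
      exact_mod_cast this
    have h1p : 1 / (p : ℝ) < δ / 2 := by
      rw [div_lt_iff₀ hp0]
      rw [div_lt_iff₀ hδ] at hP
      nlinarith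
    have hloc : LocD p n θ₀ (δ / 2) := by
      intro θ hθ R
      refine ⟨hb θ (by linarith) R, hb _ ?_ R⟩
      have h2 : θ + 1 / p - θ₀ = (θ - θ₀) + 1 / p := by ring
      rw [h2]
      refine (abs_add_le _ _).trans_lt ?_
      rw [abs_of_pos (show (0 : ℝ) < 1 / p by positivity)]
      linarith
    obtain ⟨l₀, hl₀, hall⟩ := main_four trig sup lap lim vb ser (pairM lap lfn) ch kl2 li2 sf2 p hp (by omega) n θ₀
      (δ / 2) (by positivity) hloc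
    refine ⟨l₀, hl₀, fun l hl => ?_⟩
    obtain ⟨a, ha, hB⟩ := hall l hl
    have hq : 0 < p ^ (2 * l) := pow_pos hp.pos _
    obtain ⟨d, hd⟩ : ∃ d : ℕ, a = a % p ^ (2 * l) + p ^ (2 * l) * d :=
      ⟨a / p ^ (2 * l), (Nat.mod_add_div a (p ^ (2 * l))).symm⟩
    refine ⟨a % p ^ (2 * l), Nat.mod_lt _ hq, fun h => ha ?_, ?_⟩
    · exact (Nat.dvd_mod_iff (dvd_pow_self p (by omega))).mp h
    · refine mem_E_of fun B => ?_
      obtain ⟨R, hR⟩ := hB B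
      refine ⟨R, ?_⟩
      have e1 : ((a / (p ^ (2 * l) : ℕ) : ℚ) : ℝ) =
          ((a % p ^ (2 * l) : ℕ) : ℝ) / (p : ℝ) ^ (2 * l) + ((d : ℤ) : ℝ) := by
        have e2 : (a : ℝ) = ((a % p ^ (2 * l) : ℕ) : ℝ) + (p : ℝ) ^ (2 * l) * d := by exact_mod_cast hd
        have e3 : ((p : ℝ) ^ (2 * l)) ≠ 0 := by positivity
        push_cast
        rw [div_add' _ _ _ e3]
        congr 1
        rw [e2]
        ring
      rw [e1, F_add_int] at hR
      exact hR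

theorem infinite : (E ∩ Set.Ico 0 1).Infinite := by
  rcases dichotomy with h | ⟨P₀, hP⟩
  · have hd : Dense E := dense_of_mem_residual h
    intro hfin
    have hopen : IsOpen (Set.Ioo (0 : ℝ) 1 \ (E ∩ Set.Ico 0 1)) := isOpen_Ioo.sdiff hfin.isClosed
    have hne : (Set.Ioo (0 : ℝ) 1 \ (E ∩ Set.Ico 0 1)).Nonempty := by
      have h1 : (Set.Ioo (0 : ℝ) 1).Infinite := Set.Ioo_infinite one_pos
      exact (h1.sdiff hfin).nonempty
    obtain ⟨x, hx, hxE⟩ := hd.inter_open_nonempty _ hopen hne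
    exact hx.2 ⟨hxE, hx.1.1.le, hx.1.2⟩
  · have hex : ∀ p : {p : ℕ // p.Prime ∧ P₀ ≤ p}, ∃ l a : ℕ, 1 ≤ l ∧ a < (p : ℕ) ^ (2 * l) ∧ ¬ (p : ℕ) ∣ a ∧
        ((a : ℝ) / ((p : ℕ) : ℝ) ^ (2 * l)) ∈ E := by
      rintro ⟨p, hp, hpP⟩
      obtain ⟨l₀, hl₀, hall⟩ := hP p hp hpP
      obtain ⟨a, ha1, ha2, ha3⟩ := hall l₀ le_rfl
      exact ⟨l₀, a, hl₀, ha1, ha2, ha3⟩
    choose l a hl ha1 ha2 ha3 using hex
    have hinf : Infinite {p : ℕ // p.Prime ∧ P₀ ≤ p} := by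
      have h1 : {p : ℕ | p.Prime ∧ P₀ ≤ p}.Infinite := by
        refine (Nat.infinite_setOfPred_prime.sdiff (Set.finite_Iio P₀)).mono ?_
        rintro p ⟨hp, hp'⟩
        exact ⟨hp, not_lt.mp hp'⟩
      exact h1.to_subtype
    refine Set.infinite_of_injective_forall_mem
      (f := fun p : {p : ℕ // p.Prime ∧ P₀ ≤ p} => (a p : ℝ) / ((p : ℕ) : ℝ) ^ (2 * l p)) ?_ ?_
    · intro p q hpq
      by_contra hne
      have hp : (p : ℕ).Prime := p.2.1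
      have hq : (q : ℕ).Prime := q.2.1
      have hp0 : (((p : ℕ) : ℝ) ^ (2 * l p)) ≠ 0 := pow_ne_zero _ (Nat.cast_ne_zero.mpr hp.ne_zero)
      have hq0 : (((q : ℕ) : ℝ) ^ (2 * l q)) ≠ 0 := pow_ne_zero _ (Nat.cast_ne_zero.mpr hq.ne_zero)
      have h1 : (a p : ℝ) / ((p : ℕ) : ℝ) ^ (2 * l p) = (a q : ℝ) / ((q : ℕ) : ℝ) ^ (2 * l q) := hpq
      rw [div_eq_div_iff hp0 hq0] at h1
      have h2 : a p * (q : ℕ) ^ (2 * l q) = a q * (p : ℕ) ^ (2 * l p) := by exact_mod_cast h1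
      have h3 : (p : ℕ) ∣ a p * (q : ℕ) ^ (2 * l q) := by
        rw [h2]
        exact (dvd_pow_self _ (by have := hl p; omega)).mul_left _
      rcases hp.dvd_mul.mp h3 with h4 | h4
      · exact ha2 p h4
      · have h5 := hp.dvd_of_dvd_pow h4
        have h6 := (Nat.prime_dvd_prime_iff_eq hp hq).mp h5
        exact hne (Subtype.ext h6)
    · intro p
      have hp : (p : ℕ).Prime := p.2.1
      have hp0 : (0 : ℝ) < ((p : ℕ) : ℝ) ^ (2 * l p) := pow_pos (Nat.cast_pos.mpr hp.pos) _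
      refine ⟨ha3 p, div_nonneg (Nat.cast_nonneg _) hp0.le, ?_⟩
      rw [div_lt_one hp0]
      exact_mod_cast ha1 p

end Pool.Agent.Q275.ME
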