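import Pool.Agent.Q275.ME.Gauss

/-!
# Equidistribution on the circle by Fourier monomials, and a bump function
-/

set_option autoImplicit false

open Filter Topology Finset

namespace Pool.Agent.Q275.ME

open Pool.Agent.Y821.ME

/-- Weyl's criterion for functionals on the continuous functions on the circle -/
theorem weyl (Λ : ℕ → (C(UnitAddCircle, ℂ) →ₗ[ℂ] ℂ)) (B : ℝ) (hB0 : 0 ≤ B)
    (hB : ∀ (m : ℕ) (φ : C(UnitAddCircle, ℂ)), ‖Λ m φ‖ ≤ B * ‖φ‖)
    (h : ∀ k : ℤ, Tendsto (fun m => Λ m (fourier k)) atTop (𝓝 0)) (φ : C(UnitAddCircle, ℂ)) :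
    Tendsto (fun m => Λ m φ) atTop (𝓝 0) := by
  have hspan : ∀ ψ ∈ Submodule.span ℂ (Set.range (@fourier (1 : ℝ))),
      Tendsto (fun m => Λ m ψ) atTop (𝓝 0) := by
    intro ψ hψ
    induction hψ using Submodule.span_induction with
    | mem x hx =>
      obtain ⟨k, rfl⟩ := hx
      exact h k
    | zero => simp
    | add x y _ _ hx hy =>
      have := hx.add hy
      simpa using this
    | smul c x _ hx =>
      have := hx.const_mul c
      simpa using this
  have hφ : φ ∈ closure ((Submodule.span ℂ (Set.range (@fourier (1 : ℝ))) : Submodule ℂ _) :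
      Set C(UnitAddCircle, ℂ)) := by
    have h1 := span_fourier_closure_eq_top (T := (1 : ℝ))
    rw [← Submodule.topologicalClosure_coe, h1]
    trivial
  rw [Metric.tendsto_atTop]
  intro ε hε
  rw [Metric.mem_closure_iff] at hφ
  obtain ⟨ψ, hψ, hd⟩ := hφ (ε / (2 * (B + 1))) (by positivity)
  obtain ⟨M, hM⟩ := Metric.tendsto_atTop.mp (hspan ψ hψ) (ε / 2) (by positivity)
  refine ⟨M, fun m hm => ?_⟩
  rw [dist_zero_right]
  have h1 := hM m hm
  rw [dist_zero_right] at h1
  have h2 : Λ m φ = Λ m (φ - ψ) + Λ m ψ := by rw [map_sub]; ring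
  have h3 := hB m (φ - ψ)
  rw [← dist_eq_norm] at h3
  have h4 : B * dist φ ψ ≤ ε / 2 := by
    calc B * dist φ ψ ≤ (B + 1) * (ε / (2 * (B + 1))) :=
          mul_le_mul (by linarith) hd.le dist_nonneg (by linarith)
      _ = ε / 2 := by field_simp
  rw [h2]
  refine (norm_add_le _ _).trans_lt ?_
  linarith

/-- the bump function -/
noncomputable def bump (θ₀ : UnitAddCircle) (r : ℝ) (x : UnitAddCircle) : ℝ := max 0 (r - ‖x - θ₀‖)

theorem bump_continuous (θ₀ : UnitAddCircle) (r : ℝ) : Continuous (bump θ₀ r) :=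
  continuous_const.max (continuous_const.sub (continuous_id.sub continuous_const).norm)

theorem bump_nonneg (θ₀ : UnitAddCircle) (r : ℝ) (x : UnitAddCircle) : 0 ≤ bump θ₀ r x := le_max_left _ _

theorem bump_support (θ₀ : UnitAddCircle) (r : ℝ) (x : UnitAddCircle) (h : bump θ₀ r x ≠ 0) :
    ‖x - θ₀‖ < r := by
  by_contra h1
  push Not at h1
  apply h
  unfold bump
  exact max_eq_left (by linarith)

/-- the complex bump function -/
noncomputable def bumpC (θ₀ : UnitAddCircle) (r : ℝ) : C(UnitAddCircle, ℂ) :=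
  ⟨fun x => (bump θ₀ r x : ℂ), Complex.continuous_ofReal.comp (bump_continuous θ₀ r)⟩

/-- translates of the bump function cover the circle -/
theorem bump_cover (θ₀ : UnitAddCircle) (r : ℝ) (M : ℕ) (hM : 0 < M) (hMr : 1 / (M : ℝ) ≤ r / 2)
    (x : UnitAddCircle) :
    r / 2 ≤ ∑ j ∈ range M, bump θ₀ r (x - ((j / M : ℝ) : UnitAddCircle)) := by
  have hM' : (0 : ℝ) < M := Nat.cast_pos.mpr hM
  obtain ⟨y, hy⟩ := QuotientAddGroup.mk_surjective (x - θ₀)
  set z : ℝ := Int.fract y with hz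
  have hz0 : 0 ≤ z := Int.fract_nonneg y
  have hz1 : z < 1 := Int.fract_lt_one y
  set j : ℕ := ⌊(M : ℝ) * z⌋₊ with hj
  have hjM : j < M := by
    rw [hj, Nat.floor_lt (by positivity)]
    nlinarith
  have h1 : (j : ℝ) ≤ M * z := Nat.floor_le (by positivity)
  have h2 : (M : ℝ) * z < j + 1 := Nat.lt_floor_add_one _
  have h3 : ‖x - ((j / M : ℝ) : UnitAddCircle) - θ₀‖ ≤ r / 2 := by
    have e1 : x - ((j / M : ℝ) : UnitAddCircle) - θ₀ = ((z - j / M : ℝ) : UnitAddCircle) := by
      have e2 : x - θ₀ = ((y : ℝ) : UnitAddCircle) := hy.symm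
      have e3 : ((y : ℝ) : UnitAddCircle) = ((z : ℝ) : UnitAddCircle) := by
        have e4 : y = z + (⌊y⌋ : ℝ) := by rw [hz, add_comm]; exact (Int.floor_add_fract y).symm
        rw [e4, AddCircle.coe_add]
        have e5 : (((⌊y⌋ : ℤ) : ℝ) : UnitAddCircle) = 0 := by
          have := AddCircle.coe_period (1 : ℝ)
          have e6 : (((⌊y⌋ : ℤ) : ℝ) : UnitAddCircle) = (⌊y⌋ : ℤ) • ((1 : ℝ) : UnitAddCircle) := by
            rw [← AddCircle.coe_zsmul]
            simp
          rw [e6, this, smul_zero]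
        rw [e5, add_zero]
      rw [AddCircle.coe_sub, ← e3, ← e2]
      abel
    rw [e1]
    have e7 : ‖((z - j / M : ℝ) : UnitAddCircle)‖ ≤ |z - j / M| := by
      rw [UnitAddCircle.norm_eq]
      have := round_le (z - j / M : ℝ) 0
      simpa using this
    refine e7.trans ?_
    have e8 : 0 ≤ z - j / M := by
      rw [sub_nonneg, div_le_iff₀ hM']
      linarith
    rw [abs_of_nonneg e8]
    have e9 : z - j / M ≤ 1 / M := by
      rw [sub_le_iff_le_add, ← add_div, le_div_iff₀ hM']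
      linarith
    exact e9.trans hMr
  calc r / 2 ≤ bump θ₀ r (x - ((j / M : ℝ) : UnitAddCircle)) := by
        unfold bump
        refine le_trans ?_ (le_max_right _ _)
        linarith
    _ ≤ _ := single_le_sum (f := fun j : ℕ => bump θ₀ r (x - ((j / M : ℝ) : UnitAddCircle)))
        (fun i _ => bump_nonneg _ _ _) (mem_range.mpr hjM)

theorem fourier_ee {p l : ℕ} [Fact p.Prime] (k : ℤ) (y : ZMod (p ^ (2 * l))) :
    fourier k (ZMod.toAddCircle y) = ee (p ^ (2 * l)) (k * y) := by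
  rw [fourier_apply, ← map_zsmul, zsmul_eq_mul]
  rfl

end Pool.Agent.Q275.ME
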